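import Mathlib

open Polynomial Finset

namespace Pool.Agent.Helper11.EK

/-- generating polynomial of the elementary symmetric functions -/
noncomputable def gp {n : ℕ} (y : Fin n → ℂ) : ℂ[X] := ∏ i, (1 + C (y i) * X)

lemma coeff_quot (y : ℂ) (Q : ℂ[X]) (j : ℕ) :
    Q.coeff j = ∑ l ∈ range (j+1), (-y)^l * ((1 + C y * X) * Q).coeff (j - l) := by
  induction j with
  | zero => simp [add_mul, mul_assoc]
  | succ j ih =>
    rw [sum_range_succ']
    have h1 : ((1 + C y * X) * Q).coeff (j+1) = Q.coeff (j+1) + y * Q.coeff j := by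
      rw [add_mul, mul_assoc, one_mul, coeff_add, coeff_C_mul, coeff_X_mul]
    have h2 : ∑ k ∈ range (j+1), (-y)^(k+1) * ((1 + C y * X) * Q).coeff (j + 1 - (k+1))
        = -y * Q.coeff j := by
      rw [ih, mul_sum]
      apply sum_congr rfl
      intro k _
      rw [Nat.add_sub_add_right]
      ring
    rw [h2]
    simp only [pow_zero, Nat.sub_zero, one_mul, h1]
    ring

lemma newton {n : ℕ} (y : Fin n → ℂ) (i : ℕ) :
    ((i:ℂ)+1) * (gp y).coeff (i+1) =
      ∑ l ∈ range (i+1), (-1)^l * (∑ a, (y a)^(l+1)) * (gp y).coeff (i - l) := by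
  have h1 : (derivative (gp y)).coeff i = (gp y).coeff (i+1) * ((i:ℂ)+1) := coeff_derivative _ _
  have h2 : derivative (gp y) = ∑ a, (∏ j ∈ univ.erase a, (1 + C (y j) * X)) * C (y a) := by
    unfold gp
    rw [derivative_prod_finset]
    apply sum_congr rfl
    intro a _
    simp
  rw [mul_comm, ← h1, h2, finsetSum_coeff]
  have h3 : ∀ a : Fin n, ((∏ j ∈ univ.erase a, (1 + C (y j) * X)) * C (y a)).coeff i =
      ∑ l ∈ range (i+1), (-1)^l * (y a)^(l+1) * (gp y).coeff (i - l) := by
    intro a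
    rw [coeff_mul_C, coeff_quot (y a), Finset.mul_prod_erase _ (fun j => (1 + C (y j) * X)) (Finset.mem_univ a), sum_mul]
    apply sum_congr rfl
    intro l _
    rw [show (∏ x, (1 + C (y x) * X)) = gp y from rfl, neg_pow]
    ring
  rw [sum_congr rfl (fun a _ => h3 a), sum_comm]
  apply sum_congr rfl
  intro l _
  rw [mul_sum, sum_mul]

/-- shift operator on sequences -/
def sh : Module.End ℂ (ℕ → ℂ) where
  toFun x := fun j => x (j+1)
  map_add' x y := rfl
  map_smul' a x := rfl

@[simp] lemma sh_apply (x : ℕ → ℂ) (j : ℕ) : sh x j = x (j+1) := rfl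

lemma sh_pow_apply (n : ℕ) (x : ℕ → ℂ) (j : ℕ) : (sh ^ n) x j = x (j+n) := by
  induction n generalizing x j with
  | zero => simp
  | succ n ih =>
    rw [pow_succ, Module.End.mul_apply, ih, sh_apply]
    congr 1

/-- action of polynomials on sequences by shifts -/
noncomputable def act (p : ℂ[X]) (x : ℕ → ℂ) : ℕ → ℂ := aeval sh p x

lemma act_mul (p q : ℂ[X]) (x : ℕ → ℂ) : act (p * q) x = act p (act q x) := by
  simp [act, Module.End.mul_apply]

lemma act_one (x : ℕ → ℂ) : act 1 x = x := by simp [act]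

lemma act_sub (p q : ℂ[X]) (x : ℕ → ℂ) : act (p - q) x = act p x - act q x := by
  simp [act]

lemma act_lin (a : ℂ) (x : ℕ → ℂ) (j : ℕ) : act (1 + C a * X) x j = x j + a * x (j+1) := by
  simp [act]

/-- reversed coefficient sequence -/
noncomputable def cs (P : ℂ[X]) (k : ℕ) : ℕ → ℂ := fun j => if j ≤ k then P.coeff (k - j) else 0

lemma cs_mul (P G : ℂ[X]) (k : ℕ) : cs (G * P) k = act G (cs P k) := by
  induction G using Polynomial.induction_on' with
  | add p q hp hq =>
    rw [add_mul]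
    have : act (p+q) (cs P k) = act p (cs P k) + act q (cs P k) := by simp [act]
    rw [this, ← hp, ← hq]
    funext j
    simp only [cs, Pi.add_apply, coeff_add]
    split_ifs <;> simp
  | monomial n a =>
    funext j
    have : act (monomial n a) (cs P k) j = a * (cs P k) (j + n) := by
      simp [act, aeval_monomial, sh_pow_apply, Module.algebraMap_end_apply]
    rw [this]
    simp only [cs]
    rw [← C_mul_X_pow_eq_monomial, mul_assoc, coeff_C_mul, coeff_X_pow_mul']
    by_cases hj : j ≤ k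
    · rw [if_pos hj]
      by_cases h2 : n ≤ k - j
      · rw [if_pos h2, if_pos (by omega), show k - (j + n) = k - j - n by omega]
      · rw [if_neg h2, if_neg (by omega)]
    · rw [if_neg hj, if_neg (by omega)]
      simp

lemma coeff_mul_act (P G : ℂ[X]) (k : ℕ) : (G * P).coeff k = act G (cs P k) 0 := by
  rw [← cs_mul]; simp [cs]

lemma gp_succ {h : ℕ} (a : Fin (h+1) → ℂ) : gp a = (1 + C (a 0) * X) * gp (fun i => a i.succ) := by
  unfold gp; rw [Fin.prod_univ_succ]

lemma act_bound {h : ℕ} (a : Fin h → ℂ) (ha : ∀ i, ‖a i‖ ≤ 1) (x : ℕ → ℂ) (β : ℝ) (t : ℕ)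
    (hx : ∀ j, t ≤ j → ‖x j‖ ≤ β) : ∀ j, t ≤ j → ‖act (gp a) x j‖ ≤ 2^h * β := by
  induction h with
  | zero => intro j hj; simp [gp, act_one, hx j hj]
  | succ h ih =>
    intro j hj
    rw [gp_succ, act_mul, act_lin]
    have h1 := ih (fun i => a i.succ) (fun i => ha _) j hj
    have h2 := ih (fun i => a i.succ) (fun i => ha _) (j+1) (by omega)
    calc _ ≤ ‖act (gp fun i => a i.succ) x j‖ + ‖a 0 * act (gp fun i => a i.succ) x (j+1)‖ :=
          norm_add_le _ _
      _ ≤ 2^h*β + 1 * (2^h*β) := by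
          rw [norm_mul]
          gcongr
          exact ha 0
      _ = 2^(h+1)*β := by ring

lemma act_bound1 {h : ℕ} (a : Fin h → ℂ) (ha : ∀ i, ‖a i‖ ≤ 1) (x : ℕ → ℂ) (β : ℝ) (hβ : 0 ≤ β)
    (t : ℕ) (hx : ∀ j, t ≤ j → ‖x j‖ ≤ β) :
    ∀ j, t ≤ j + 1 → ‖act (gp a) x j - x j‖ ≤ 2^h * β := by
  induction h with
  | zero => intro j hj; simp [gp, act_one, hβ]
  | succ h ih =>
    intro j hj
    rw [gp_succ, act_mul, act_lin]
    have h1 := ih (fun i => a i.succ) (fun i => ha _) j hj
    have h2 := act_bound (fun i => a i.succ) (fun i => ha _) x β t hx (j+1) hj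
    calc ‖act (gp fun i => a i.succ) x j + a 0 * act (gp fun i => a i.succ) x (j+1) - x j‖
        = ‖(act (gp fun i => a i.succ) x j - x j) + a 0 * act (gp fun i => a i.succ) x (j+1)‖ := by
          congr 1; ring
      _ ≤ ‖act (gp fun i => a i.succ) x j - x j‖ + ‖a 0 * act (gp fun i => a i.succ) x (j+1)‖ :=
          norm_add_le _ _
      _ ≤ 2^h*β + 1 * (2^h*β) := by
          rw [norm_mul]
          gcongr
          exact ha 0
      _ = 2^(h+1)*β := by ring

lemma act_bound2 {h : ℕ} (a : Fin h → ℂ) (ha : ∀ i, ‖a i‖ ≤ 1) (x : ℕ → ℂ) (β : ℝ) (hβ : 0 ≤ β)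
    (t : ℕ) (hx : ∀ j, t ≤ j → ‖x j‖ ≤ β) :
    ∀ j, t ≤ j + 2 → ‖act (gp a) x j - (x j + (∑ i, a i) * x (j+1))‖ ≤ 2^h * β := by
  induction h with
  | zero => intro j hj; simp [gp, act_one, hβ]
  | succ h ih =>
    intro j hj
    rw [gp_succ, act_mul, act_lin, Fin.sum_univ_succ]
    have h1 := ih (fun i => a i.succ) (fun i => ha _) j hj
    have h2 := act_bound1 (fun i => a i.succ) (fun i => ha _) x β hβ t hx (j+1) (by omega)
    calc ‖act (gp fun i => a i.succ) x j + a 0 * act (gp fun i => a i.succ) x (j+1)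
            - (x j + (a 0 + ∑ i : Fin h, a i.succ) * x (j+1))‖
        = ‖(act (gp fun i => a i.succ) x j - (x j + (∑ i : Fin h, a i.succ) * x (j+1)))
            + a 0 * (act (gp fun i => a i.succ) x (j+1) - x (j+1))‖ := by
          congr 1; ring
      _ ≤ _ + _ := norm_add_le _ _
      _ ≤ 2^h*β + 1 * (2^h*β) := by
          rw [norm_mul]
          gcongr
          exact ha 0
      _ = 2^(h+1)*β := by ring

lemma gp_add {a b : ℕ} (y : Fin (a+b) → ℂ) :
    gp y = gp (fun i => y (Fin.castAdd b i)) * gp (fun i => y (Fin.natAdd a i)) := by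
  unfold gp; rw [Fin.prod_univ_add]

lemma gp_range (n : ℕ) (y : ℕ → ℂ) (k : ℕ) :
    (gp (fun i : Fin n => y i)).coeff k = ∑ s ∈ (range n).powersetCard k, ∏ i ∈ s, y i := by
  have h1 : gp (fun i : Fin n => y i) = ∏ i ∈ range n, (1 + C (y i) * X) := by
    unfold gp
    rw [Finset.prod_range]
  rw [h1, Finset.prod_one_add, finsetSum_coeff]
  have h2 : ∀ s ∈ (range n).powerset, (∏ i ∈ s, C (y i) * X : ℂ[X]).coeff k =
      if s.card = k then ∏ i ∈ s, y i else 0 := by
    intro s _
    rw [Finset.prod_mul_distrib, Finset.prod_const, ← map_prod, coeff_C_mul, coeff_X_pow]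
    by_cases h : s.card = k
    · simp [h]
    · rw [if_neg h, if_neg (fun h' => h h'.symm), mul_zero]
  rw [sum_congr rfl h2, ← sum_filter]
  apply sum_congr _ (fun _ _ => rfl)
  ext s
  simp [Finset.mem_powersetCard]

end Pool.Agent.Helper11.EK
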