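import Mathlib
import Pool.Agent.Helper11.EKAlg

open Polynomial Finset MeasureTheory
open scoped ENNReal

namespace Pool.Agent.Helper11.EK

/-- product measure on tuples -/
noncomputable def pm (ν : Measure ℂ) (n : ℕ) : Measure (Fin n → ℂ) := Measure.pi (fun _ => ν)

instance (ν : Measure ℂ) [IsProbabilityMeasure ν] (n : ℕ) : IsProbabilityMeasure (pm ν n) := by
  unfold pm; infer_instance

lemma measurable_append (a b : ℕ) :
    Measurable (fun p : (Fin a → ℂ) × (Fin b → ℂ) => (Fin.append p.1 p.2 : Fin (a+b) → ℂ)) := by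
  rw [measurable_pi_iff]
  intro i
  refine Fin.addCases (fun i => ?_) (fun i => ?_) i
  · simp only [Fin.append_left]
    exact (measurable_pi_apply i).comp measurable_fst
  · simp only [Fin.append_right]
    exact (measurable_pi_apply i).comp measurable_snd

lemma map_append (ν : Measure ℂ) [IsProbabilityMeasure ν] (a b : ℕ) :
    Measure.map (fun p : (Fin a → ℂ) × (Fin b → ℂ) => (Fin.append p.1 p.2 : Fin (a+b) → ℂ))
      ((pm ν a).prod (pm ν b)) = pm ν (a+b) := by
  symm
  apply Measure.pi_eq
  intro s hs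
  rw [Measure.map_apply (measurable_append a b) (MeasurableSet.univ_pi hs)]
  have : (fun p : (Fin a → ℂ) × (Fin b → ℂ) => (Fin.append p.1 p.2 : Fin (a+b) → ℂ)) ⁻¹'
      (Set.univ.pi s) = (Set.univ.pi fun i => s (Fin.castAdd b i)) ×ˢ
        (Set.univ.pi fun i => s (Fin.natAdd a i)) := by
    ext p
    simp only [Set.mem_preimage, Set.mem_pi, Set.mem_univ, true_implies, Set.mem_prod]
    constructor
    · intro h
      refine ⟨fun i => ?_, fun i => ?_⟩
      · have := h (Fin.castAdd b i); rwa [Fin.append_left] at this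
      · have := h (Fin.natAdd a i); rwa [Fin.append_right] at this
    · rintro ⟨h1, h2⟩ i
      refine Fin.addCases (fun i => ?_) (fun i => ?_) i
      · rw [Fin.append_left]; exact h1 i
      · rw [Fin.append_right]; exact h2 i
  rw [this, Measure.prod_prod]
  unfold pm
  rw [Measure.pi_pi, Measure.pi_pi, Fin.prod_univ_add]

lemma gp_append {a b : ℕ} (y : Fin a → ℂ) (z : Fin b → ℂ) :
    gp (Fin.append y z) = gp y * gp z := by
  rw [gp_add]
  simp only [Fin.append_left, Fin.append_right]

lemma meas_act (h : ℕ) : ∀ (x : ℕ → ℂ) (j : ℕ), Measurable (fun v : Fin h → ℂ => act (gp v) x j) := by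
  induction h with
  | zero => intro x j; simp only [gp, univ_eq_empty, prod_empty]; exact measurable_const
  | succ h ih =>
    intro x j
    simp only [gp_succ, act_mul, act_lin]
    have ht : Measurable (fun v : Fin (h+1) → ℂ => (fun i : Fin h => v i.succ)) := by
      rw [measurable_pi_iff]; intro i; exact measurable_pi_apply _
    have h1 := (ih x j).comp ht
    have h2 := (ih x (j+1)).comp ht
    exact h1.add ((measurable_pi_apply 0).mul h2)

lemma sq_lintegral_le {α : Type*} [MeasurableSpace α] (μ : Measure α) [IsProbabilityMeasure μ]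
    (f : α → ℝ≥0∞) (hf : Measurable f) : (∫⁻ a, f a ∂μ)^2 ≤ ∫⁻ a, (f a)^2 ∂μ := by
  have h := ENNReal.lintegral_mul_le_Lp_mul_Lq μ (p := 2) (q := 2)
    (by norm_num [Real.holderConjugate_iff]) hf.aemeasurable
    (aemeasurable_const (b := (1 : ℝ≥0∞)))
  simp only [Pi.mul_apply, mul_one, ENNReal.one_rpow, lintegral_const, measure_univ] at h
  calc (∫⁻ a, f a ∂μ)^2 ≤ ((∫⁻ a, f a ^ (2:ℝ) ∂μ) ^ (1 / (2:ℝ)))^2 := by gcongr
    _ = ∫⁻ a, (f a)^2 ∂μ := by
      rw [← ENNReal.rpow_natCast, ← ENNReal.rpow_mul]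
      norm_num

lemma ae_bdd (ν : Measure ℂ) [IsProbabilityMeasure ν] (hν : ∀ᵐ y ∂ν, ‖y‖ ≤ 1) (n : ℕ) :
    ∀ᵐ a ∂(pm ν n), ∀ i, ‖a i‖ ≤ 1 := by
  rw [ae_all_iff]
  intro i
  exact (Measure.tendsto_eval_ae_ae (μ := fun _ : Fin n => ν) (i := i)).eventually hν

/-- decoupling inequality -/
lemma decouple {X Z : Type*} [MeasurableSpace X] [MeasurableSpace Z] (μ : Measure X)
    [IsProbabilityMeasure μ] (ρ : Measure Z) [IsProbabilityMeasure ρ] (A : Set (X × Z))
    (hA : MeasurableSet A) :
    (μ.prod ρ A)^2 ≤ ((μ.prod μ).prod ρ) {p | (p.1.1, p.2) ∈ A ∧ (p.1.2, p.2) ∈ A} := by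
  have hB : MeasurableSet {p : (X × X) × Z | (p.1.1, p.2) ∈ A ∧ (p.1.2, p.2) ∈ A} := by
    apply MeasurableSet.inter
    · exact (((measurable_fst.comp measurable_fst).prodMk measurable_snd) hA)
    · exact (((measurable_snd.comp measurable_fst).prodMk measurable_snd) hA)
  rw [Measure.prod_apply_symm hA, Measure.prod_apply_symm hB]
  refine (sq_lintegral_le ρ _ (measurable_measure_prodMk_right hA)).trans (le_of_eq ?_)
  apply lintegral_congr
  intro z
  have : (fun x : X × X => (x, z)) ⁻¹' {p : (X × X) × Z | (p.1.1, p.2) ∈ A ∧ (p.1.2, p.2) ∈ A} =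
      ((fun x => (x, z)) ⁻¹' A) ×ˢ ((fun x => (x, z)) ⁻¹' A) := by
    ext p; simp
  rw [this, Measure.prod_prod, sq]

/-- small ball set for the difference of block sums -/
def sball (h : ℕ) (lam : ℝ) : Set ((Fin h → ℂ) × (Fin h → ℂ)) :=
  {p | ‖∑ i, p.1 i - ∑ i, p.2 i‖ ≤ lam}

def mm (h : ℕ) : ℕ → ℕ
  | 0 => 0
  | r+1 => h + mm h r

lemma mm_eq (h r : ℕ) : mm h r = r * h := by
  induction r with
  | zero => simp [mm]
  | succ r ih => rw [mm, ih]; ring

theorem anti (ν : Measure ℂ) [IsProbabilityMeasure ν] (hν : ∀ᵐ y ∂ν, ‖y‖ ≤ 1) (l : ℕ) :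
    ∀ δ : ℝ≥0∞, 0 < δ → ∃ Q0 : ℝ≥0∞, 0 < Q0 ∧ ∀ (h : ℕ) (lam : ℝ), 0 < lam → lam ≤ 1 →
      (((pm ν h).prod (pm ν h)) (sball h lam) ≤ Q0) → ∀ R : ℕ, ∃ η : ℝ, 0 < η ∧ η ≤ 1 ∧
      ∀ r, l ≤ r → r ≤ R → ∀ (x : ℕ → ℂ) (α β τ : ℝ), 0 < α → α ≤ ‖x l‖ →
        (∀ j, l < j → ‖x j‖ ≤ β) → 0 ≤ β → β ≤ η * α → τ ≤ η * α →
        (pm ν (mm h r)) {v | ‖act (gp v) x 0‖ ≤ τ} ≤ δ := by
  induction l with
  | zero =>
    intro δ hδ
    refine ⟨1, one_pos, ?_⟩
    intro h lam _ _ _ R
    refine ⟨1 / (2 * (2:ℝ)^(R*h) + 2), by positivity, ?_, ?_⟩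
    · rw [div_le_one (by positivity)]
      have : (0:ℝ) < (2:ℝ)^(R*h) := by positivity
      linarith
    intro r _ hr x α β τ hα hxl hxj hβ hβα hτα
    have h0 : (pm ν (mm h r)) {v | ‖act (gp v) x 0‖ ≤ τ} = 0 := by
      have : ∀ᵐ v ∂(pm ν (mm h r)), ¬ (‖act (gp v) x 0‖ ≤ τ) := by
        filter_upwards [ae_bdd ν hν (mm h r)] with v hv
        have h1 := act_bound1 v hv x β hβ 1 (fun j hj => hxj j (by omega)) 0 (by omega)
        have h2 : (2:ℝ)^(mm h r) ≤ 2^(R*h) := by
          rw [mm_eq]
          exact pow_le_pow_right₀ (by norm_num) (Nat.mul_le_mul_right h hr)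
        have h3 : ‖x 0‖ - ‖act (gp v) x 0‖ ≤ ‖act (gp v) x 0 - x 0‖ := by
          rw [norm_sub_rev]; exact norm_sub_norm_le _ _
        set M := (2:ℝ)^(R*h) with hM
        have hMpos : 0 < M := by positivity
        have h4 : (2:ℝ)^(mm h r) * β ≤ M * (1 / (2 * M + 2) * α) := by gcongr
        have h5 : M * (1 / (2 * M + 2) * α) + 1/(2*M+2) * α = α / 2 := by
          field_simp
        push Not
        linarith
      rw [ae_iff] at this
      simpa using this
    rw [h0]; exact zero_le
  | succ l ih =>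
    intro δ hδ
    by_cases hδtop : 1 ≤ δ
    · refine ⟨1, one_pos, ?_⟩
      intro h lam _ _ _ R
      refine ⟨1, one_pos, le_refl _, ?_⟩
      intro r _ _ x α β τ _ _ _ _ _ _
      exact (prob_le_one).trans hδtop
    push Not at hδtop
    have hδ2 : 0 < δ^2/2 := by
      apply ENNReal.div_pos
      · exact (ENNReal.pow_pos hδ 2).ne'
      · norm_num
    obtain ⟨Q0', hQ0', hih⟩ := ih (δ^2/2) hδ2
    refine ⟨min Q0' (δ^2/2), lt_min hQ0' hδ2, ?_⟩
    intro h lam hlam hlam1 hQ R
    obtain ⟨η', hη', hη'1, hih2⟩ := hih h lam hlam hlam1 (hQ.trans (min_le_left _ _)) R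
    refine ⟨η' * lam / 2^(h+2), by positivity, ?_, ?_⟩
    · rw [div_le_one (by positivity)]
      have : (1:ℝ) ≤ 2^(h+2) := one_le_pow₀ (by norm_num)
      nlinarith
    intro r hlr hrR x α β τ hα hxl hxj hβ hβα hτα
    obtain ⟨r', rfl⟩ : ∃ r', r = r' + 1 := ⟨r - 1, by omega⟩
    -- rewrite the measure through append
    set A : Set ((Fin h → ℂ) × (Fin (mm h r') → ℂ)) :=
      {p | ‖act (gp p.1 * gp p.2) x 0‖ ≤ τ} with hAdef
    have hApre : A = (fun p : (Fin h → ℂ) × (Fin (mm h r') → ℂ) =>
        (Fin.append p.1 p.2 : Fin (h + mm h r') → ℂ)) ⁻¹' {v | ‖act (gp v) x 0‖ ≤ τ} := by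
      ext p
      simp only [hAdef, Set.mem_ofPred_eq, Set.mem_preimage, gp_append]
    have hSmeas : MeasurableSet {v : Fin (h + mm h r') → ℂ | ‖act (gp v) x 0‖ ≤ τ} :=
      measurableSet_le (meas_act _ x 0).norm measurable_const
    have hA : MeasurableSet A := by
      rw [hApre]; exact measurable_append _ _ hSmeas
    have hmeas : (pm ν (mm h (r'+1))) {v | ‖act (gp v) x 0‖ ≤ τ} =
        ((pm ν h).prod (pm ν (mm h r'))) A := by
      change (pm ν (h + mm h r')) {v | ‖act (gp v) x 0‖ ≤ τ} = _
      rw [← map_append, Measure.map_apply (measurable_append _ _) hSmeas, hApre]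
    rw [hmeas]
    have hdec := decouple (pm ν h) (pm ν (mm h r')) A hA
    -- bound the decoupled probability
    set B : Set (((Fin h → ℂ) × (Fin h → ℂ)) × (Fin (mm h r') → ℂ)) :=
      {p | (p.1.1, p.2) ∈ A ∧ (p.1.2, p.2) ∈ A} with hBdef
    have hBm : MeasurableSet B := by
      apply MeasurableSet.inter
      · exact (((measurable_fst.comp measurable_fst).prodMk measurable_snd) hA)
      · exact (((measurable_snd.comp measurable_fst).prodMk measurable_snd) hA)
    have hBle : (((pm ν h).prod (pm ν h)).prod (pm ν (mm h r'))) B ≤ δ^2 := by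
      rw [Measure.prod_apply hBm]
      have hae : ∀ᵐ p ∂((pm ν h).prod (pm ν h)), (∀ i, ‖p.1 i‖ ≤ 1) ∧ (∀ i, ‖p.2 i‖ ≤ 1) := by
        have h1 := (Measure.quasiMeasurePreserving_fst (μ := pm ν h) (ν := pm ν h)).ae
          (ae_bdd ν hν h)
        have h2 := (Measure.quasiMeasurePreserving_snd (μ := pm ν h) (ν := pm ν h)).ae
          (ae_bdd ν hν h)
        filter_upwards [h1, h2] with p hp1 hp2
        exact ⟨hp1, hp2⟩
      have hbound : ∀ᵐ p ∂((pm ν h).prod (pm ν h)),
          (pm ν (mm h r')) (Prod.mk p ⁻¹' B) ≤ (sball h lam).indicator 1 p + δ^2/2 := by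
        filter_upwards [hae] with p hp
        by_cases hps : p ∈ sball h lam
        · rw [Set.indicator_of_mem hps]
          refine (prob_le_one).trans ?_
          simp
        · rw [Set.indicator_of_notMem hps, zero_add]
          have hps' : lam < ‖∑ i, p.1 i - ∑ i, p.2 i‖ := by
            simp only [sball, Set.mem_ofPred_eq, not_le] at hps
            exact hps
          -- new sequence
          set y : ℕ → ℂ := act (gp p.1) x - act (gp p.2) x with hy
          have hsub : Prod.mk p ⁻¹' B ⊆ {w | ‖act (gp w) y 0‖ ≤ 2 * τ} := by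
            intro w hw
            have hw1 : ‖act (gp p.1 * gp w) x 0‖ ≤ τ := hw.1
            have hw2 : ‖act (gp p.2 * gp w) x 0‖ ≤ τ := hw.2
            rw [mul_comm, act_mul] at hw1 hw2
            have : act (gp w) y = act (gp w) (act (gp p.1) x) - act (gp w) (act (gp p.2) x) := by
              rw [hy]; simp [act]
            simp only [Set.mem_ofPred_eq, this, Pi.sub_apply]
            refine (norm_sub_le _ _).trans ?_
            linarith
          refine (measure_mono hsub).trans ?_
          have hb2 : (2:ℝ)^(h+1) * β ≤ η' * (lam * α / 2) := by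
            have : β ≤ η' * lam / 2^(h+2) * α := hβα
            calc (2:ℝ)^(h+1) * β ≤ 2^(h+1) * (η' * lam / 2^(h+2) * α) := by gcongr
              _ = η' * (lam * α / 2) := by
                rw [pow_succ (2:ℝ) (h+1)]; field_simp
          have hb3 : η' * (lam * α / 2) ≤ lam * α / 2 := by
            have : 0 < lam * α / 2 := by positivity
            nlinarith
          refine hih2 r' (by omega) (by omega) y (lam * α / 2) (2^(h+1) * β) (2*τ) (by positivity)
            ?_ ?_ (by positivity) hb2 ?_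
          · -- lower bound for y l
            have e1 := act_bound2 p.1 hp.1 x β hβ (l+2) (fun j hj => hxj j (by omega)) l (by omega)
            have e2 := act_bound2 p.2 hp.2 x β hβ (l+2) (fun j hj => hxj j (by omega)) l (by omega)
            have e3 : (∑ i, p.1 i - ∑ i, p.2 i) * x (l+1) =
              y l - ((act (gp p.1) x l - (x l + (∑ i, p.1 i) * x (l+1)))
                - (act (gp p.2) x l - (x l + (∑ i, p.2 i) * x (l+1)))) := by
              simp only [hy, Pi.sub_apply]; ring
            have e4 : ‖(∑ i, p.1 i - ∑ i, p.2 i) * x (l+1)‖ ≤ ‖y l‖ + (2^h * β + 2^h * β) := by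
              rw [e3]
              refine (norm_sub_le _ _).trans ?_
              gcongr
              exact (norm_sub_le _ _).trans (by gcongr)
            rw [norm_mul] at e4
            have e5 : lam * α ≤ ‖∑ i, p.1 i - ∑ i, p.2 i‖ * ‖x (l+1)‖ := by gcongr
            have e6 : (2:ℝ)^h * β + 2^h * β = 2^(h+1) * β := by ring
            linarith
          · intro j hj
            have e1 := act_bound1 p.1 hp.1 x β hβ (l+2) (fun j hj => hxj j (by omega)) j (by omega)
            have e2 := act_bound1 p.2 hp.2 x β hβ (l+2) (fun j hj => hxj j (by omega)) j (by omega)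
            have e3 : y j = (act (gp p.1) x j - x j) - (act (gp p.2) x j - x j) := by
              simp only [hy, Pi.sub_apply]; ring
            rw [e3]
            refine (norm_sub_le _ _).trans ?_
            have e6 : (2:ℝ)^h * β + 2^h * β = 2^(h+1) * β := by ring
            linarith
          · have h4 : (4:ℝ) ≤ 2^(h+2) := by
              have : (1:ℝ) ≤ 2^h := one_le_pow₀ (by norm_num)
              rw [pow_add]; linarith
            have : η' * lam / 2^(h+2) * α ≤ η' * lam / 4 * α := by gcongr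
            linarith
      calc ∫⁻ p, (pm ν (mm h r')) (Prod.mk p ⁻¹' B) ∂((pm ν h).prod (pm ν h))
          ≤ ∫⁻ p, ((sball h lam).indicator 1 p + δ^2/2) ∂((pm ν h).prod (pm ν h)) :=
            lintegral_mono_ae hbound
        _ ≤ δ^2/2 + δ^2/2 := by
            rw [lintegral_add_right _ measurable_const, lintegral_const, measure_univ, mul_one]
            have hm : MeasurableSet (sball h lam) := by
              unfold sball
              apply measurableSet_le _ measurable_const
              apply Measurable.norm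
              apply Measurable.sub
              · exact (Finset.measurable_sum _ (fun i _ => (measurable_pi_apply i))).comp measurable_fst
              · exact (Finset.measurable_sum _ (fun i _ => (measurable_pi_apply i))).comp measurable_snd
            rw [lintegral_indicator_one hm]
            gcongr
            exact hQ.trans (min_le_right _ _)
        _ = δ^2 := ENNReal.add_halves _
    have hfin := hdec.trans hBle
    exact (ENNReal.pow_le_pow_left_iff (by norm_num)).1 hfin

end Pool.Agent.Helper11.EK
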