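import Mathlib
import Pool.Agent.Helper11.EKAnti

open Finset MeasureTheory ProbabilityTheory Filter Topology
open scoped ENNReal

namespace Pool.Agent.Helper11.EK

variable (ν : Measure ℂ) [IsProbabilityMeasure ν] (L : ℂ → ℝ)

/-- characteristic function of a real functional -/
noncomputable def Phi (g : ℝ) : ℂ := ∫ y, Complex.exp (g * L y * Complex.I) ∂ν

lemma norm_exp_real (a b : ℝ) : ‖Complex.exp ((a:ℂ) * b * Complex.I)‖ = 1 := by
  have : (a:ℂ) * b * Complex.I = ((a*b : ℝ) : ℂ) * Complex.I := by push_cast; ring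
  rw [this, Complex.norm_exp_ofReal_mul_I]

lemma Phi_norm_le (g : ℝ) : ‖Phi ν L g‖ ≤ 1 := by
  unfold Phi
  refine (norm_integral_le_integral_norm _).trans ?_
  simp only [norm_exp_real]
  simp

variable {L}

lemma meas_integrand (hL : Measurable L) :
    Measurable (fun p : ℝ × ℂ => Complex.exp (p.1 * L p.2 * Complex.I)) := by
  apply Complex.measurable_exp.comp
  apply Measurable.mul _ measurable_const
  exact (Complex.measurable_ofReal.comp measurable_fst).mul
    (Complex.measurable_ofReal.comp (hL.comp measurable_snd))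

lemma Phi_sm (hL : Measurable L) : StronglyMeasurable (Phi ν L) := by
  unfold Phi
  apply StronglyMeasurable.integral_prod_right
  exact (meas_integrand hL).stronglyMeasurable

/-- strict inequality almost everywhere -/
lemma Phi_lt_one (hL : Measurable L) (hnd : ¬ ∃ c, ∀ᵐ y ∂ν, L y = c) :
    ∀ᵐ g ∂(gaussianReal 0 1), ‖Phi ν L g‖ < 1 := by
  -- positive measure of the off-diagonal
  set W : Set (ℂ × ℂ) := {p | L p.1 ≠ L p.2} with hW
  have hWm : MeasurableSet W := by
    have : MeasurableSet {p : ℂ × ℂ | L p.1 = L p.2} :=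
      measurableSet_eq_fun (hL.comp measurable_fst) (hL.comp measurable_snd)
    exact this.compl
  have hWpos : (ν.prod ν) W ≠ 0 := by
    intro h0
    apply hnd
    have h1 : ∀ᵐ p ∂(ν.prod ν), L p.1 = L p.2 := by
      rw [ae_iff]; exact h0
    have h2 := Measure.ae_ae_of_ae_prod h1
    obtain ⟨x, hx⟩ := h2.exists
    exact ⟨L x, hx.mono (fun y hy => hy.symm)⟩
  -- Fubini
  set T : Set (ℝ × (ℂ × ℂ)) := {q | q.2 ∈ W ∧ Real.cos (q.1 * (L q.2.1 - L q.2.2)) = 1} with hT
  have hTm : MeasurableSet T := by
    apply MeasurableSet.inter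
    · exact measurable_snd hWm
    · apply measurableSet_eq_fun _ measurable_const
      apply Real.measurable_cos.comp
      exact measurable_fst.mul ((hL.comp (measurable_fst.comp measurable_snd)).sub
        (hL.comp (measurable_snd.comp measurable_snd)))
  have : NullSingletonClass (gaussianReal 0 1) := nullSingletonClass_gaussianReal (by norm_num)
  have hT0 : ((gaussianReal 0 1).prod (ν.prod ν)) T = 0 := by
    rw [Measure.prod_apply_symm hTm]
    rw [lintegral_eq_zero_iff (measurable_measure_prodMk_right hTm)]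
    apply Eventually.of_forall
    intro p
    by_cases hp : p ∈ W
    · have hd : L p.1 - L p.2 ≠ 0 := sub_ne_zero.2 hp
      have hsub : (fun x => (x, p)) ⁻¹' T ⊆ Set.range (fun n : ℤ => (n:ℝ) * (2*Real.pi) / (L p.1 - L p.2)) := by
        intro g hg
        obtain ⟨n, hn⟩ := (Real.cos_eq_one_iff _).1 hg.2
        refine ⟨n, ?_⟩
        simp only
        rw [hn]; field_simp
      exact measure_mono_null hsub ((Set.countable_range _).measure_zero _)
    · have : (fun x => (x, p)) ⁻¹' T = ∅ := by
        ext g; simp only [Set.mem_preimage, hT, Set.mem_ofPred_eq, Set.mem_empty_iff_false, iff_false]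
        intro h; exact hp h.1
      simp [this]
  have hae : ∀ᵐ g ∂(gaussianReal 0 1), (ν.prod ν) (Prod.mk g ⁻¹' T) = 0 := by
    have := (Measure.measure_prod_null hTm).1 hT0
    exact this
  filter_upwards [hae] with g hg
  by_contra hcon
  have hge : 1 ≤ ‖Phi ν L g‖ := not_lt.1 hcon
  -- compute |Phi|^2
  have hprod : ∫ p : ℂ × ℂ, Complex.exp (g * L p.1 * Complex.I) *
      (starRingEnd ℂ) (Complex.exp (g * L p.2 * Complex.I)) ∂(ν.prod ν) =
      Phi ν L g * (starRingEnd ℂ) (Phi ν L g) := by
    have e := integral_prod_mul (μ := ν) (ν := ν)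
      (fun a : ℂ => Complex.exp (g * L a * Complex.I))
      (fun b : ℂ => (starRingEnd ℂ) (Complex.exp (g * L b * Complex.I)))
    rw [e]
    unfold Phi
    rw [← integral_conj]
  have hre : ∫ p : ℂ × ℂ, Real.cos (g * (L p.1 - L p.2)) ∂(ν.prod ν) = ‖Phi ν L g‖^2 := by
    have h1 : ∀ p : ℂ × ℂ, Real.cos (g * (L p.1 - L p.2)) = (Complex.exp (g * L p.1 * Complex.I) *
      (starRingEnd ℂ) (Complex.exp (g * L p.2 * Complex.I))).re := by
      intro p
      rw [← Complex.exp_conj, ← Complex.exp_add]
      have : (g:ℂ) * L p.1 * Complex.I + (starRingEnd ℂ) ((g:ℂ) * L p.2 * Complex.I) =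
          ((g * (L p.1 - L p.2) : ℝ) : ℂ) * Complex.I := by
        simp only [map_mul, Complex.conj_ofReal, Complex.conj_I]
        push_cast; ring
      rw [this, Complex.exp_ofReal_mul_I_re]
    have hint : Integrable (fun p : ℂ × ℂ => Complex.exp (g * L p.1 * Complex.I) *
      (starRingEnd ℂ) (Complex.exp (g * L p.2 * Complex.I))) (ν.prod ν) := by
      apply Integrable.of_bound (C := 1)
      · apply Measurable.aestronglyMeasurable
        apply Measurable.mul
        · exact (meas_integrand hL).comp (measurable_const.prodMk measurable_fst)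
        · exact Complex.continuous_conj.measurable.comp
            ((meas_integrand hL).comp (measurable_const.prodMk measurable_snd))
      · apply Eventually.of_forall
        intro p
        rw [norm_mul, RCLike.norm_conj, norm_exp_real, norm_exp_real]; norm_num
    rw [integral_congr_ae (Eventually.of_forall h1)]
    have h2 := integral_re hint
    simp only [RCLike.re_to_complex] at h2
    rw [h2, hprod, Complex.mul_conj, Complex.ofReal_re, Complex.normSq_eq_norm_sq]
  have hcosint : Integrable (fun p : ℂ × ℂ => Real.cos (g * (L p.1 - L p.2))) (ν.prod ν) := by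
    apply Integrable.of_bound (C := 1)
    · apply Measurable.aestronglyMeasurable
      apply Real.measurable_cos.comp
      exact measurable_const.mul ((hL.comp measurable_fst).sub (hL.comp measurable_snd))
    · apply Eventually.of_forall; intro p; exact Real.abs_cos_le_one _
  have hzero : ∫ p : ℂ × ℂ, (1 - Real.cos (g * (L p.1 - L p.2))) ∂(ν.prod ν) = 0 := by
    apply le_antisymm
    · rw [integral_sub (integrable_const _) hcosint, hre]
      simp
      nlinarith
    · apply integral_nonneg
      intro p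
      simp only [Pi.zero_apply, sub_nonneg]
      exact Real.cos_le_one _
  have hzero := (integral_eq_zero_iff_of_nonneg
      (f := fun p : ℂ × ℂ => 1 - Real.cos (g * (L p.1 - L p.2))) (fun p => by
      simp only [Pi.zero_apply, sub_nonneg]; exact Real.cos_le_one _)
      ((integrable_const _).sub hcosint)).1 hzero
  apply hWpos
  refine measure_mono_null ?_ (measure_union_null hg (ae_iff.1 hzero))
  intro p hp
  by_cases hc : Real.cos (g * (L p.1 - L p.2)) = 1
  · left; exact ⟨hp, hc⟩
  · right
    simp only [Set.mem_ofPred_eq, Pi.zero_apply]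
    intro h; apply hc; linarith

/-- collision probability bound -/
lemma collision_le (hL : Measurable L) (h : ℕ) :
    ((pm ν h).prod (pm ν h)).real {p | ∑ i, L (p.1 i) = ∑ i, L (p.2 i)} ≤
      ∫ g, ‖Phi ν L g‖^h ∂(gaussianReal 0 1) := by
  set M := (pm ν h).prod (pm ν h) with hM
  set D : (Fin h → ℂ) × (Fin h → ℂ) → ℝ := fun p => ∑ i, L (p.1 i) - ∑ i, L (p.2 i) with hD
  have hDm : Measurable D := by
    apply Measurable.sub
    · exact Finset.measurable_sum _ (fun i _ => hL.comp ((measurable_pi_apply i).comp measurable_fst))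
    · exact Finset.measurable_sum _ (fun i _ => hL.comp ((measurable_pi_apply i).comp measurable_snd))
  have hset : MeasurableSet {p : (Fin h → ℂ) × (Fin h → ℂ) | ∑ i, L (p.1 i) = ∑ i, L (p.2 i)} := by
    have : {p : (Fin h → ℂ) × (Fin h → ℂ) | ∑ i, L (p.1 i) = ∑ i, L (p.2 i)} = D ⁻¹' {0} := by
      ext p; simp [hD, sub_eq_zero]
    rw [this]; exact hDm (measurableSet_singleton 0)
  have hintexp : Integrable (fun p => Real.exp (-(D p)^2/2)) M := by
    apply Integrable.of_bound (C := 1)
    · apply Measurable.aestronglyMeasurable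
      exact Real.measurable_exp.comp (((hDm.pow_const 2).neg).div_const 2)
    · apply Eventually.of_forall; intro p
      rw [Real.norm_eq_abs, abs_of_pos (Real.exp_pos _), Real.exp_le_one_iff]
      nlinarith [sq_nonneg (D p)]
  have h1 : M.real {p | ∑ i, L (p.1 i) = ∑ i, L (p.2 i)} ≤ ∫ p, Real.exp (-(D p)^2/2) ∂M := by
    rw [← integral_indicator_one hset]
    apply integral_mono _ hintexp
    · intro p
      simp only [Set.indicator, Set.mem_ofPred_eq]
      split_ifs with hp
      · have : D p = 0 := by simp [hD, hp]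
        simp [this]
      · positivity
    · exact (integrable_indicator_iff hset).2 (integrable_const _).integrableOn
  refine h1.trans ?_
  -- Fubini
  have hF : Measurable (fun q : ((Fin h → ℂ) × (Fin h → ℂ)) × ℝ => Complex.exp (D q.1 * q.2 * Complex.I)) := by
    apply Complex.measurable_exp.comp
    apply Measurable.mul _ measurable_const
    exact (Complex.measurable_ofReal.comp (hDm.comp measurable_fst)).mul
      (Complex.measurable_ofReal.comp measurable_snd)
  have hFint : Integrable (fun q : ((Fin h → ℂ) × (Fin h → ℂ)) × ℝ => Complex.exp (D q.1 * q.2 * Complex.I))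
      (M.prod (gaussianReal 0 1)) := by
    apply Integrable.of_bound (C := 1) hF.aestronglyMeasurable
    apply Eventually.of_forall; intro q
    rw [norm_exp_real]
  have h2 : ((∫ p, Real.exp (-(D p)^2/2) ∂M : ℝ) : ℂ) =
      ∫ p, ∫ g, Complex.exp (D p * g * Complex.I) ∂(gaussianReal 0 1) ∂M := by
    rw [← integral_complex_ofReal]
    apply integral_congr_ae
    apply Eventually.of_forall
    intro p
    simp only
    rw [← charFun_apply_real, charFun_gaussianReal]
    push_cast
    congr 1
    simp
    ring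
  have h3 : ∫ p, ∫ g, Complex.exp (D p * g * Complex.I) ∂(gaussianReal 0 1) ∂M =
      ∫ g, ∫ p, Complex.exp (D p * g * Complex.I) ∂M ∂(gaussianReal 0 1) :=
    integral_integral_swap hFint
  have h4 : ∀ g : ℝ, ∫ p, Complex.exp (D p * g * Complex.I) ∂M = Phi ν L g ^ h * Phi ν L (-g) ^ h := by
    intro g
    have e1 : ∀ p, Complex.exp (D p * g * Complex.I) =
        (∏ i, Complex.exp (g * L (p.1 i) * Complex.I)) *
        (∏ i, Complex.exp (((-g : ℝ) : ℂ) * L (p.2 i) * Complex.I)) := by
      intro p
      rw [← Complex.exp_sum, ← Complex.exp_sum, ← Complex.exp_add]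
      congr 1
      simp only [hD]
      push_cast
      rw [sub_mul, sub_mul, sum_mul, sum_mul, sum_mul, sum_mul, sub_eq_add_neg, ← sum_neg_distrib]
      congr 1 <;> (apply sum_congr rfl; intro i _; ring)
    rw [integral_congr_ae (Eventually.of_forall e1), hM]
    have e2 := integral_prod_mul (μ := pm ν h) (ν := pm ν h)
      (fun a : Fin h → ℂ => ∏ i, Complex.exp (g * L (a i) * Complex.I))
      (fun b : Fin h → ℂ => ∏ i, Complex.exp (((-g : ℝ) : ℂ) * L (b i) * Complex.I))
    rw [e2]
    unfold pm
    rw [integral_fintype_prod_eq_pow (fun y => Complex.exp (g * L y * Complex.I)),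
      integral_fintype_prod_eq_pow (fun y => Complex.exp (((-g : ℝ) : ℂ) * L y * Complex.I))]
    simp only [Fintype.card_fin]
    rfl
  have h5 : ‖∫ g, ∫ p, Complex.exp (D p * g * Complex.I) ∂M ∂(gaussianReal 0 1)‖ ≤
      ∫ g, ‖Phi ν L g‖^h ∂(gaussianReal 0 1) := by
    rw [integral_congr_ae (Eventually.of_forall h4)]
    refine (norm_integral_le_integral_norm _).trans ?_
    have hPint : Integrable (fun g => ‖Phi ν L g‖^h) (gaussianReal 0 1) := by
      apply Integrable.of_bound (C := 1)
      · exact ((Phi_sm ν hL).norm.pow h).aestronglyMeasurable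
      · apply Eventually.of_forall; intro g
        rw [Real.norm_eq_abs, abs_of_nonneg (by positivity)]
        exact pow_le_one₀ (norm_nonneg _) (Phi_norm_le ν L g)
    apply integral_mono_of_nonneg (Eventually.of_forall (fun g => norm_nonneg _)) hPint
    apply Eventually.of_forall; intro g
    simp only [norm_mul, norm_pow]
    have := pow_le_one₀ (n := h) (norm_nonneg _) (Phi_norm_le ν L (-g))
    have h0 : 0 ≤ ‖Phi ν L g‖^h := by positivity
    nlinarith
  have h6 : |∫ p, Real.exp (-(D p)^2/2) ∂M| ≤ ∫ g, ‖Phi ν L g‖^h ∂(gaussianReal 0 1) := by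
    rw [← Real.norm_eq_abs, ← Complex.norm_real, h2, h3]
    exact h5
  exact (le_abs_self _).trans h6

lemma tendsto_int (hL : Measurable L) (hnd : ¬ ∃ c, ∀ᵐ y ∂ν, L y = c) :
    Tendsto (fun h : ℕ => ∫ g, ‖Phi ν L g‖^h ∂(gaussianReal 0 1)) atTop (𝓝 0) := by
  have key : Tendsto (fun h : ℕ => ∫ g, ‖Phi ν L g‖^h ∂(gaussianReal 0 1)) atTop
      (𝓝 (∫ _g : ℝ, (0:ℝ) ∂(gaussianReal 0 1))) := ?_
  · simpa using key
  apply tendsto_integral_of_dominated_convergence (fun _ => (1:ℝ))
  · intro h; exact ((Phi_sm ν hL).norm.pow h).aestronglyMeasurable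
  · exact integrable_const _
  · intro h
    apply Eventually.of_forall; intro g
    rw [Real.norm_eq_abs, abs_of_nonneg (by positivity)]
    exact pow_le_one₀ (norm_nonneg _) (Phi_norm_le ν L g)
  · filter_upwards [Phi_lt_one ν hL hnd] with g hg
    exact tendsto_pow_atTop_nhds_zero_of_lt_one (norm_nonneg _) hg

theorem small_ball_of_nd (hnd : ¬ ∃ c : ℂ, ∀ᵐ y ∂ν, y = c) (Q : ℝ≥0∞) (hQ : 0 < Q) :
    ∃ h : ℕ, ∃ lam : ℝ, 0 < lam ∧ lam ≤ 1 ∧ ((pm ν h).prod (pm ν h)) (sball h lam) ≤ Q := by
  -- choose a functional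
  obtain ⟨L, hLm, hLlin, hL⟩ : ∃ L : ℂ → ℝ, Measurable L ∧
      (∀ (h : ℕ) (a b : Fin h → ℂ), ∑ i, a i = ∑ i, b i → ∑ i, L (a i) = ∑ i, L (b i)) ∧
      ¬ ∃ c, ∀ᵐ y ∂ν, L y = c := by
    by_cases hre : ∃ c, ∀ᵐ y ∂ν, Complex.re y = c
    · by_cases him : ∃ c, ∀ᵐ y ∂ν, Complex.im y = c
      · exfalso
        obtain ⟨c, hc⟩ := hre
        obtain ⟨d, hd⟩ := him
        apply hnd
        refine ⟨⟨c, d⟩, ?_⟩
        filter_upwards [hc, hd] with y h1 h2
        exact Complex.ext h1 h2
      · refine ⟨Complex.im, Complex.measurable_im, ?_, him⟩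
        intro h a b hab
        rw [← Complex.im_sum, ← Complex.im_sum, hab]
    · refine ⟨Complex.re, Complex.measurable_re, ?_, hre⟩
      intro h a b hab
      rw [← Complex.re_sum, ← Complex.re_sum, hab]
  -- choose h
  obtain ⟨ε, hε, hεQ⟩ : ∃ ε : ℝ, 0 < ε ∧ ENNReal.ofReal ε < Q := by
    by_cases hQt : Q = ⊤
    · exact ⟨1, one_pos, by rw [hQt]; exact ENNReal.ofReal_lt_top⟩
    · refine ⟨Q.toReal / 2, by have := ENNReal.toReal_pos hQ.ne' hQt; positivity, ?_⟩
      rw [ENNReal.ofReal_lt_iff_lt_toReal (by have := ENNReal.toReal_pos hQ.ne' hQt; positivity) hQt]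
      have := ENNReal.toReal_pos hQ.ne' hQt
      linarith
  have hlim := tendsto_int ν hLm hL
  obtain ⟨h, hh⟩ := (hlim.eventually (gt_mem_nhds hε)).exists
  have hcol := (collision_le ν hLm h).trans hh.le
  set M := (pm ν h).prod (pm ν h) with hM
  have hcol2 : M {p | ∑ i, p.1 i = ∑ i, p.2 i} ≤ ENNReal.ofReal ε := by
    refine (measure_mono (fun p hp => ?_) :
      M {p | ∑ i, p.1 i = ∑ i, p.2 i} ≤ M {p | ∑ i, L (p.1 i) = ∑ i, L (p.2 i)}).trans ?_
    · exact hLlin h p.1 p.2 hp
    · rw [← ENNReal.ofReal_toReal (measure_ne_top M _)]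
      exact ENNReal.ofReal_le_ofReal hcol
  -- continuity from above
  have hdec : Tendsto (fun n : ℕ => M (sball h (1 / ((n:ℝ)+1)))) atTop
      (𝓝 (M (⋂ n : ℕ, sball h (1 / ((n:ℝ)+1))))) := by
    apply tendsto_measure_iInter_atTop
    · intro n
      apply MeasurableSet.nullMeasurableSet
      unfold sball
      apply measurableSet_le _ measurable_const
      apply Measurable.norm
      apply Measurable.sub
      · exact (Finset.measurable_sum _ (fun i _ => (measurable_pi_apply i))).comp measurable_fst
      · exact (Finset.measurable_sum _ (fun i _ => (measurable_pi_apply i))).comp measurable_snd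
    · intro m n hmn p hp
      simp only [sball, Set.mem_ofPred_eq] at hp ⊢
      refine hp.trans ?_
      apply one_div_le_one_div_of_le (by positivity)
      have : (m:ℝ) ≤ n := by exact_mod_cast hmn
      linarith
    · exact ⟨0, measure_ne_top _ _⟩
  have hint : M (⋂ n : ℕ, sball h (1 / ((n:ℝ)+1))) ≤ ENNReal.ofReal ε := by
    refine (measure_mono ?_).trans hcol2
    intro p hp
    simp only [Set.mem_iInter, sball, Set.mem_ofPred_eq] at hp ⊢
    have h0 : ‖∑ i, p.1 i - ∑ i, p.2 i‖ ≤ 0 := by
      apply le_of_forall_pos_le_add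
      intro e he
      obtain ⟨n, hn⟩ := exists_nat_one_div_lt he
      have := hp n
      linarith
    have := norm_le_zero_iff.1 h0
    exact sub_eq_zero.1 this
  have hev := hdec.eventually (gt_mem_nhds (hint.trans_lt hεQ))
  obtain ⟨n, hn⟩ := hev.exists
  refine ⟨h, 1 / ((n:ℝ)+1), by positivity, ?_, hn.le⟩
  rw [div_le_one (by positivity)]
  have : (0:ℝ) ≤ n := Nat.cast_nonneg n
  linarith

end Pool.Agent.Helper11.EK
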