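import Mathlib

open Finset

namespace Pool.Agent.Helper11.EK

/-- reversed sequence truncated -/
noncomputable def rv (e : ℕ → ℂ) (i : ℕ) : ℕ → ℂ := fun j => if j ≤ i then e (i - j) else 0

lemma rv_succ (e : ℕ → ℂ) (i j : ℕ) : rv e (i+1) (j+1) = rv e i j := by
  simp only [rv]
  by_cases h : j ≤ i
  · rw [if_pos h, if_pos (by omega), Nat.add_sub_add_right]
  · rw [if_neg h, if_neg (by omega)]

/-- weighted maximum of the top q entries -/
noncomputable def XX (e : ℕ → ℂ) (σ : ℝ) (q : ℕ) (hq : 1 ≤ q) (i : ℕ) : ℝ :=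
  (range q).sup' ⟨0, by simp; omega⟩ (fun l => ‖rv e i l‖ / σ^l)

lemma XX_le (e : ℕ → ℂ) (σ : ℝ) (hσ : 0 < σ) (q : ℕ) (hq : 1 ≤ q) (i l : ℕ) (hl : l < q) :
    ‖rv e i l‖ ≤ σ^l * XX e σ q hq i := by
  have := Finset.le_sup' (fun l => ‖rv e i l‖ / σ^l) (mem_range.2 hl)
  have h2 : ‖rv e i l‖ / σ^l ≤ XX e σ q hq i := this
  rw [div_le_iff₀ (by positivity)] at h2
  linarith

lemma XX_attain (e : ℕ → ℂ) (σ : ℝ) (hσ : 0 < σ) (q : ℕ) (hq : 1 ≤ q) (i : ℕ) :
    ∃ l < q, ‖rv e i l‖ = σ^l * XX e σ q hq i := by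
  obtain ⟨l, hl, h⟩ := Finset.exists_mem_eq_sup' (s := range q) ⟨0, by simp; omega⟩
    (fun l => ‖rv e i l‖ / σ^l)
  refine ⟨l, mem_range.1 hl, ?_⟩
  have h2 : XX e σ q hq i = ‖rv e i l‖ / σ^l := h
  rw [h2]
  field_simp

lemma XX_bound (e : ℕ → ℂ) (σ : ℝ) (q : ℕ) (hq : 1 ≤ q) (i : ℕ) (B : ℝ)
    (h : ∀ l < q, ‖rv e i l‖ / σ^l ≤ B) : XX e σ q hq i ≤ B := by
  apply Finset.sup'_le
  intro l hl
  exact h l (mem_range.1 hl)

lemma XX_nonneg (e : ℕ → ℂ) (σ : ℝ) (hσ : 0 < σ) (q : ℕ) (hq : 1 ≤ q) (i : ℕ) :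
    0 ≤ XX e σ q hq i := by
  have := XX_le e σ hσ q hq i 0 (by omega)
  simp at this
  exact le_trans (norm_nonneg _) this

lemma geom_tail (θ : ℝ) (h0 : 0 ≤ θ) (h1 : θ ≤ 1/2) (q n : ℕ) :
    ∑ l ∈ range n, θ^(q+l) ≤ 2 * θ^q := by
  have : ∀ n, ∑ l ∈ range n, θ^(q+l) ≤ 2 * θ^q - θ^(q+n) * 2 * (if n = 0 then 0 else 0) := by
    intro n; simp
    have h3 : ∑ l ∈ range n, θ^(q+l) = θ^q * ∑ l ∈ range n, θ^l := by
      rw [mul_sum]; apply sum_congr rfl; intro l _; rw [pow_add]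
    rw [h3]
    have h4 : ∑ l ∈ range n, θ^l ≤ 2 := by
      have h5 : (∑ l ∈ range n, θ^l) * (θ - 1) = θ^n - 1 := geom_sum_mul θ n
      have h6 : 0 ≤ θ^n := by positivity
      nlinarith
    have h7 : 0 ≤ θ^q := by positivity
    nlinarith
  simpa using this n

theorem domination (e S : ℕ → ℂ) (he0 : e 0 = 1)
    (hNew : ∀ i : ℕ, ((i:ℂ)+1) * e (i+1) = ∑ l ∈ range (i+1), (-1)^l * S (l+1) * e (i - l))
    (N μ κ σ : ℝ) (q : ℕ) (hq : 1 ≤ q) (hN : 0 < N) (hμ : 0 < μ) (hκ : 0 ≤ κ) (hσ : 0 < σ)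
    (hσ4 : σ ≤ 1/4)
    (hS : ∀ l, ‖S (l+1)‖ ≤ N) (hSq : μ * N ≤ ‖S q‖) (hSl : ∀ l, l + 1 < q → ‖S (l+1)‖ ≤ κ * N)
    (c1 : κ * q + 2 * (2*σ)^q ≤ μ * σ^(q-1) / 2) (c2 : κ ≤ μ * σ^q) (K : ℕ) (hK : (K:ℝ) ≤ κ * N) :
    ∀ i ≤ K, 1 ≤ XX e σ q hq i ∧ ∀ j, ‖rv e i j‖ ≤ (2*σ)^j * XX e σ q hq i := by
  have hth : 0 ≤ 2*σ := by linarith
  have hth1 : 2*σ ≤ 1/2 := by linarith
  intro i
  induction i with
  | zero =>
    intro _
    have h1 : 1 ≤ XX e σ q hq 0 := by
      have := XX_le e σ hσ q hq 0 0 (by omega)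
      simp [rv, he0] at this
      exact this
    refine ⟨h1, ?_⟩
    intro j
    cases j with
    | zero => simpa [rv, he0] using h1
    | succ j =>
      have : rv e 0 (j+1) = 0 := by simp [rv]
      rw [this, norm_zero]
      have := XX_nonneg e σ hσ q hq 0
      positivity
  | succ i ih =>
    intro hiK
    obtain ⟨hX1, hH⟩ := ih (by omega)
    set Xi := XX e σ q hq i with hXi
    set Xs := XX e σ q hq (i+1) with hXs
    have hXs0 : 0 ≤ Xs := XX_nonneg e σ hσ q hq (i+1)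
    have hXi0 : 0 ≤ Xi := by linarith
    -- main estimate
    have hmain : ‖rv e i (q-1)‖ * μ ≤ κ * Xs + (κ * q + 2 * (2*σ)^q) * Xi := by
      -- Newton identity in terms of rv
      have hN1 : ((i:ℂ)+1) * rv e (i+1) 0 = ∑ l ∈ range (q + (i+1)), (-1)^l * S (l+1) * rv e i l := by
        have h0 : rv e (i+1) 0 = e (i+1) := by simp [rv]
        rw [h0, hNew]
        rw [add_comm q, sum_range_add _ (i+1) q]
        have h1 : ∑ x ∈ range q, (-1)^(i+1+x) * S (i+1+x+1) * rv e i (i+1+x) = 0 := by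
          apply sum_eq_zero
          intro x _
          have : rv e i (i+1+x) = 0 := by simp only [rv]; rw [if_neg (by omega)]
          rw [this, mul_zero]
        rw [h1, add_zero]
        apply sum_congr rfl
        intro l hl
        have : rv e i l = e (i - l) := by
          simp only [rv]; rw [if_pos (by have := mem_range.1 hl; omega)]
        rw [this]
      rw [sum_range_add] at hN1
      have hq1 : q = (q-1) + 1 := by omega
      rw [show ∑ l ∈ range q, (-1)^l * S (l+1) * rv e i l =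
        ∑ l ∈ range (q-1), (-1)^l * S (l+1) * rv e i l + (-1)^(q-1) * S q * rv e i (q-1) by
          conv_lhs => rw [hq1]
          rw [sum_range_succ, ← hq1]] at hN1
      have hN2 : (-1)^(q-1) * S q * rv e i (q-1) = ((i:ℂ)+1) * rv e (i+1) 0
          - ∑ l ∈ range (q-1), (-1)^l * S (l+1) * rv e i l
          - ∑ x ∈ range (i+1), (-1)^(q+x) * S (q+x+1) * rv e i (q+x) := by
        rw [hN1]; ring
      have hN3 : ‖S q‖ * ‖rv e i (q-1)‖ ≤ ((i:ℝ)+1) * ‖rv e (i+1) 0‖
          + ∑ l ∈ range (q-1), ‖S (l+1)‖ * ‖rv e i l‖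
          + ∑ x ∈ range (i+1), ‖S (q+x+1)‖ * ‖rv e i (q+x)‖ := by
        have e1 : ‖S q‖ * ‖rv e i (q-1)‖ = ‖(-1)^(q-1) * S q * rv e i (q-1)‖ := by
          rw [norm_mul, norm_mul, norm_pow]; simp
        rw [e1, hN2]
        refine (norm_sub_le _ _).trans ?_
        refine add_le_add ((norm_sub_le _ _).trans ?_) ?_
        · refine add_le_add ?_ ?_
          · rw [norm_mul]
            have : ‖((i:ℂ)+1)‖ = (i:ℝ)+1 := by
              rw [← Nat.cast_succ, Complex.norm_natCast]; push_cast; rfl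
            rw [this]
          · refine (norm_sum_le _ _).trans (le_of_eq ?_)
            apply sum_congr rfl
            intro l _
            rw [norm_mul, norm_mul, norm_pow]; simp
        · refine (norm_sum_le _ _).trans (le_of_eq ?_)
          apply sum_congr rfl
          intro l _
          rw [norm_mul, norm_mul, norm_pow]; simp
      have hA : ((i:ℝ)+1) * ‖rv e (i+1) 0‖ ≤ κ * N * Xs := by
        have h1 : ((i:ℝ)+1) ≤ κ * N := by
          refine le_trans ?_ hK
          exact_mod_cast hiK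
        have h2 : ‖rv e (i+1) 0‖ ≤ Xs := by
          have := XX_le e σ hσ q hq (i+1) 0 (by omega)
          simpa using this
        have h3 : 0 ≤ κ * N := by positivity
        calc _ ≤ (κ*N) * ‖rv e (i+1) 0‖ := by gcongr
          _ ≤ _ := by gcongr
      have hXall : ∀ j, ‖rv e i j‖ ≤ Xi := by
        intro j
        refine (hH j).trans ?_
        have : (2*σ)^j ≤ 1 := pow_le_one₀ hth (by linarith)
        nlinarith
      have hB : ∑ l ∈ range (q-1), ‖S (l+1)‖ * ‖rv e i l‖ ≤ κ * N * q * Xi := by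
        calc _ ≤ ∑ l ∈ range (q-1), (κ * N) * Xi := by
              apply sum_le_sum
              intro l hl
              have h1 := hSl l (by have := mem_range.1 hl; omega)
              have h2 := hXall l
              gcongr
          _ = ((q-1 : ℕ):ℝ) * (κ * N * Xi) := by rw [sum_const, card_range, nsmul_eq_mul]
          _ ≤ (q:ℝ) * (κ * N * Xi) := by
              gcongr
              omega
          _ = _ := by ring
      have hC : ∑ x ∈ range (i+1), ‖S (q+x+1)‖ * ‖rv e i (q+x)‖ ≤ N * (2 * (2*σ)^q) * Xi := by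
        calc _ ≤ ∑ x ∈ range (i+1), N * ((2*σ)^(q+x) * Xi) := by
              apply sum_le_sum
              intro x _
              have h1 := hS (q+x)
              have h2 := hH (q+x)
              gcongr
          _ = N * Xi * ∑ x ∈ range (i+1), (2*σ)^(q+x) := by
              rw [mul_sum]; apply sum_congr rfl; intro x _; ring
          _ ≤ N * Xi * (2 * (2*σ)^q) := by
              gcongr
              exact geom_tail _ hth hth1 _ _
          _ = _ := by ring
      have hD : μ * N * ‖rv e i (q-1)‖ ≤ κ * N * Xs + κ * N * q * Xi + N * (2 * (2*σ)^q) * Xi := by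
        calc _ ≤ ‖S q‖ * ‖rv e i (q-1)‖ := by gcongr
          _ ≤ _ := by linarith
      have hE : N * (‖rv e i (q-1)‖ * μ) ≤ N * (κ * Xs + (κ * q + 2 * (2*σ)^q) * Xi) := by
        nlinarith
      exact le_of_mul_le_mul_left hE hN
    -- deduce X_i ≤ 2σ X_{i+1}
    have hcrit : Xi ≤ σ * Xs + Xi / 2 := by
      obtain ⟨l, hl, hle⟩ := XX_attain e σ hσ q hq i
      rw [← hXi] at hle
      by_cases hlq : l + 1 < q
      · have h1 := XX_le e σ hσ q hq (i+1) (l+1) hlq
        rw [rv_succ, hle, ← hXs, pow_succ] at h1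
        have h2 : 0 < σ^l := by positivity
        have h3 : σ^l * Xi ≤ σ^l * (σ * Xs) := by linarith
        have h4 := le_of_mul_le_mul_left h3 h2
        linarith
      · have hl2 : l = q - 1 := by omega
        subst hl2
        rw [hle] at hmain
        have hp : 0 < σ^(q-1) := by positivity
        have hqq : σ^q = σ^(q-1) * σ := by
          rw [← pow_succ]; congr 1; omega
        have h1 : κ * Xs ≤ μ * (σ^(q-1) * σ) * Xs := by
          rw [← hqq]; gcongr
        have h2 : (κ * q + 2 * (2*σ)^q) * Xi ≤ μ * σ^(q-1) / 2 * Xi := by gcongr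
        have h3 : (μ * σ^(q-1)) * Xi ≤ (μ * σ^(q-1)) * (σ * Xs + Xi/2) := by nlinarith
        exact le_of_mul_le_mul_left h3 (by positivity)
    have hXX : Xi ≤ 2*σ * Xs := by linarith
    refine ⟨by nlinarith, ?_⟩
    intro j
    cases j with
    | zero =>
      have := XX_le e σ hσ q hq (i+1) 0 (by omega)
      simpa using this
    | succ j =>
      rw [rv_succ]
      calc _ ≤ (2*σ)^j * Xi := hH j
        _ ≤ (2*σ)^j * (2*σ*Xs) := by gcongr
        _ = _ := by ring

end Pool.Agent.Helper11.EK
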