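import Mathlib
import Pool.Agent.Helper11.EKDom
import Pool.Agent.Helper11.EKBall

open Finset MeasureTheory ProbabilityTheory Filter Topology Polynomial
open scoped ENNReal

namespace Pool.Agent.Helper11.EK

/-- uniform version of `anti` over l < q -/
lemma anti_unif (ν : Measure ℂ) [IsProbabilityMeasure ν] (hν : ∀ᵐ y ∂ν, ‖y‖ ≤ 1)
    (δ : ℝ≥0∞) (hδ : 0 < δ) (q : ℕ) :
    ∃ Q0 : ℝ≥0∞, 0 < Q0 ∧ ∀ (h : ℕ) (lam : ℝ), 0 < lam → lam ≤ 1 →
      (((pm ν h).prod (pm ν h)) (sball h lam) ≤ Q0) → ∀ R : ℕ, ∃ η : ℝ, 0 < η ∧ η ≤ 1 ∧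
      ∀ l < q, ∀ r, l ≤ r → r ≤ R → ∀ (x : ℕ → ℂ) (α β τ : ℝ), 0 < α → α ≤ ‖x l‖ →
        (∀ j, l < j → ‖x j‖ ≤ β) → 0 ≤ β → β ≤ η * α → τ ≤ η * α →
        (pm ν (mm h r)) {v | ‖act (gp v) x 0‖ ≤ τ} ≤ δ := by
  induction q with
  | zero =>
    refine ⟨1, one_pos, ?_⟩
    intro h lam _ _ _ R
    exact ⟨1, one_pos, le_refl _, fun l hl => absurd hl (by omega)⟩
  | succ q ih =>
    obtain ⟨Q1, hQ1, h1⟩ := ih
    obtain ⟨Q2, hQ2, h2⟩ := anti ν hν q δ hδ
    refine ⟨min Q1 Q2, lt_min hQ1 hQ2, ?_⟩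
    intro h lam hlam hlam1 hQ R
    obtain ⟨η1, hη1, hη11, h3⟩ := h1 h lam hlam hlam1 (hQ.trans (min_le_left _ _)) R
    obtain ⟨η2, hη2, hη21, h4⟩ := h2 h lam hlam hlam1 (hQ.trans (min_le_right _ _)) R
    refine ⟨min η1 η2, lt_min hη1 hη2, (min_le_left _ _).trans hη11, ?_⟩
    intro l hl r hlr hrR x α β τ hα hxl hxj hβ hβα hτα
    have hm1 : min η1 η2 * α ≤ η1 * α := by gcongr; exact min_le_left _ _
    have hm2 : min η1 η2 * α ≤ η2 * α := by gcongr; exact min_le_right _ _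
    by_cases hlq : l < q
    · exact h3 l hlq r hlr hrR x α β τ hα hxl hxj hβ (hβα.trans hm1) (hτα.trans hm1)
    · have : l = q := by omega
      subst this
      exact h4 r hlr hrR x α β τ hα hxl hxj hβ (hβα.trans hm2) (hτα.trans hm2)

/-- the law of the first n variables -/
lemma law_fin {Ω : Type*} [MeasurableSpace Ω] (P : Measure Ω) [IsProbabilityMeasure P]
    (Y : ℕ → Ω → ℂ) (hY : ∀ i, Measurable (Y i)) (hind : iIndepFun Y P)
    (hid : ∀ i, IdentDistrib (Y i) (Y 0) P P) (n : ℕ) :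
    P.map (fun ω (i : Fin n) => Y i ω) = pm (P.map (Y 0)) n := by
  have h1 : iIndepFun (fun i : Fin n => Y i) P := hind.precomp Fin.val_injective
  have h2 := (iIndepFun_iff_map_fun_eq_pi_map (fun i => (hY _).aemeasurable)).1 h1
  rw [h2]
  unfold pm
  congr 1
  funext i
  exact (hid i).map_eq

/-- bad set for the power sums -/
def bad (μm : ℕ → ℂ) (κ : ℝ) (q n : ℕ) : Set (Fin n → ℂ) :=
  {y | ∃ l ∈ Finset.Icc 1 q, κ ≤ ‖(n:ℝ)⁻¹ • ∑ i, (y i)^l - μm l‖}

lemma meas_bad (μm : ℕ → ℂ) (κ : ℝ) (q n : ℕ) : MeasurableSet (bad μm κ q n) := by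
  have : bad μm κ q n = ⋃ l ∈ Finset.Icc 1 q, {y | κ ≤ ‖(n:ℝ)⁻¹ • ∑ i, (y i)^l - μm l‖} := by
    ext y; simp [bad]
  rw [this]
  apply Finset.measurableSet_biUnion
  intro l _
  apply measurableSet_le measurable_const
  apply Measurable.norm
  apply Measurable.sub_const
  have h2 : Measurable (fun x : Fin n → ℂ => ∑ i, x i ^ l) :=
    Finset.measurable_sum _ (fun i _ => (measurable_pi_apply i).pow_const l)
  exact h2.const_smul ((n:ℝ)⁻¹)

lemma lln {Ω : Type*} [MeasurableSpace Ω] (P : Measure Ω) [IsProbabilityMeasure P]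
    (Y : ℕ → Ω → ℂ) (hY : ∀ i, Measurable (Y i)) (hind : iIndepFun Y P)
    (hid : ∀ i, IdentDistrib (Y i) (Y 0) P P) (hb : ∀ i ω, ‖Y i ω‖ ≤ 1) (κ : ℝ) (hκ : 0 < κ)
    (q : ℕ) :
    Tendsto (fun n => (pm (P.map (Y 0)) n) (bad (fun l => ∫ ω, (Y 0 ω)^l ∂P) κ q n)) atTop (𝓝 0) := by
  have h1 : ∀ l, Tendsto (fun n : ℕ => P {ω | κ ≤ ‖(n:ℝ)⁻¹ • ∑ i ∈ range n, (Y i ω)^l
      - ∫ ω, (Y 0 ω)^l ∂P‖}) atTop (𝓝 0) := by
    intro l
    have hint : Integrable (fun ω => (Y 0 ω)^l) P := by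
      apply Integrable.of_bound (C := 1) ((hY 0).pow_const l).aestronglyMeasurable
      apply Eventually.of_forall
      intro ω
      rw [norm_pow]
      exact pow_le_one₀ (norm_nonneg _) (hb 0 ω)
    have hsl := strong_law_ae (μ := P) (fun i ω => (Y i ω)^l) hint
      (fun i j hij => (hind.indepFun hij).comp (measurable_id.pow_const l) (measurable_id.pow_const l))
      (fun i => (hid i).comp (measurable_id.pow_const l))
    have hm := tendstoInMeasure_of_tendsto_ae (μ := P)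
      (f := fun (n : ℕ) ω => (n:ℝ)⁻¹ • ∑ i ∈ range n, (Y i ω)^l)
      (g := fun _ => ∫ ω, (Y 0 ω)^l ∂P) (fun n => by
        apply Measurable.aestronglyMeasurable
        have h2 : Measurable (fun ω => ∑ i ∈ range n, Y i ω ^ l) :=
          Finset.measurable_sum _ (fun i _ => (hY i).pow_const l)
        exact h2.const_smul ((n:ℝ)⁻¹)) hsl
    exact (tendstoInMeasure_iff_norm.1 hm) κ hκ
  have h2 : ∀ n, (pm (P.map (Y 0)) n) (bad (fun l => ∫ ω, (Y 0 ω)^l ∂P) κ q n) ≤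
      ∑ l ∈ Finset.Icc 1 q, P {ω | κ ≤ ‖(n:ℝ)⁻¹ • ∑ i ∈ range n, (Y i ω)^l
      - ∫ ω, (Y 0 ω)^l ∂P‖} := by
    intro n
    rw [← law_fin P Y hY hind hid n, Measure.map_apply
      (f := fun ω (i : Fin n) => Y i ω) (measurable_pi_iff.2 (fun i => hY i)) (meas_bad _ _ _ _)]
    refine le_trans (measure_mono ?_) (measure_biUnion_finset_le _ _)
    intro ω hω
    simp only [bad, Set.mem_preimage, Set.mem_ofPred_eq] at hω
    obtain ⟨l, hl, hle⟩ := hω
    simp only [Set.mem_iUnion]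
    refine ⟨l, hl, ?_⟩
    simp only [Set.mem_ofPred_eq]
    rw [Finset.sum_range]
    exact hle
  refine tendsto_of_tendsto_of_tendsto_of_le_of_le tendsto_const_nhds ?_ (fun n => zero_le) h2
  have : (0:ℝ≥0∞) = ∑ l ∈ Finset.Icc 1 q, 0 := by simp
  rw [this]
  exact tendsto_finsetSum _ (fun l _ => h1 l)

/-- Core theorem: variables bounded by one, some non-zero moment. -/
theorem core {Ω : Type*} [MeasurableSpace Ω] (P : Measure Ω) [IsProbabilityMeasure P]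
    (Y : ℕ → Ω → ℂ) (hY : ∀ i, Measurable (Y i)) (hind : iIndepFun Y P)
    (hid : ∀ i, IdentDistrib (Y i) (Y 0) P P) (hb : ∀ i ω, ‖Y i ω‖ ≤ 1)
    (hnd : ¬ ∃ c : ℂ, ∀ᵐ ω ∂P, Y 0 ω = c)
    (hmom : ∃ j : ℕ, 1 ≤ j ∧ ∫ ω, (Y 0 ω)^j ∂P ≠ 0) (k : ℕ → ℕ)
    (hk : Tendsto (fun n : ℕ => (k n : ℝ) / (n : ℝ)) atTop (𝓝 0)) (ε : ℝ) (hε : 0 < ε) :
    Tendsto (fun n : ℕ => P {ω | ‖∑ s ∈ (Finset.range n).powersetCard (k n), ∏ i ∈ s, Y i ω‖
        ≤ Real.exp (-(ε * (n : ℝ)))}) atTop (𝓝 0) := by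
  classical
  -- the law
  set ν : Measure ℂ := P.map (Y 0) with hν
  haveI : IsProbabilityMeasure ν := Measure.isProbabilityMeasure_map (hY 0).aemeasurable
  have hνb : ∀ᵐ y ∂ν, ‖y‖ ≤ 1 := by
    rw [hν, ae_map_iff (hY 0).aemeasurable (measurableSet_le measurable_norm measurable_const)]
    exact Eventually.of_forall (hb 0)
  have hνnd : ¬ ∃ c : ℂ, ∀ᵐ y ∂ν, y = c := by
    rintro ⟨c, hc⟩
    apply hnd
    refine ⟨c, ?_⟩
    exact ae_of_ae_map (hY 0).aemeasurable hc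
  -- minimal moment
  obtain ⟨q, ⟨hq1, hqne⟩, hqmin⟩ : ∃ q, (1 ≤ q ∧ ∫ ω, (Y 0 ω)^q ∂P ≠ 0) ∧
      ∀ l < q, ¬ (1 ≤ l ∧ ∫ ω, (Y 0 ω)^l ∂P ≠ 0) :=
    ⟨Nat.find hmom, Nat.find_spec hmom, fun l hl => Nat.find_min hmom hl⟩
  set μm : ℕ → ℂ := fun l => ∫ ω, (Y 0 ω)^l ∂P with hμm
  have hμ0 : ∀ l, 1 ≤ l → l < q → μm l = 0 := by
    intro l h1 h2
    by_contra h
    exact hqmin l h2 ⟨h1, h⟩
  set μ : ℝ := ‖μm q‖ / 2 with hμdef
  have hμpos : 0 < μ := by
    have : 0 < ‖μm q‖ := norm_pos_iff.2 hqne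
    positivity
  have hμ1 : ‖μm q‖ ≤ 1 := by
    simp only [hμm]
    refine (norm_integral_le_of_norm_le_const (C := 1) (Eventually.of_forall ?_)).trans ?_
    · intro ω; rw [norm_pow]; exact pow_le_one₀ (norm_nonneg _) (hb 0 ω)
    · simp
  rw [ENNReal.tendsto_nhds_zero]
  intro δ hδ
  have hδ2 : 0 < δ / 2 := ENNReal.div_pos hδ.ne' (by norm_num)
  obtain ⟨Q0, hQ0, hanti⟩ := anti_unif ν hνb (δ/2) hδ2 q
  obtain ⟨h, lam, hlam, hlam1, hball⟩ := small_ball_of_nd ν hνnd Q0 hQ0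
  obtain ⟨η, hη, hη1, hmain⟩ := hanti h lam hlam hlam1 hball q
  set m : ℕ := mm h q with hm
  -- sigma
  obtain ⟨σ, hσ, hσ4, hσμ, hση⟩ : ∃ σ : ℝ, 0 < σ ∧ σ ≤ 1/4 ∧ 2^(q+3) * σ ≤ μ ∧ 2^q * σ ≤ η := by
    refine ⟨min (1/4) (min (μ / 2^(q+3)) (η / 2^q)), by positivity, min_le_left _ _, ?_, ?_⟩
    · have : min (1/4) (min (μ / 2^(q+3)) (η / 2^q)) ≤ μ / 2^(q+3) :=
        (min_le_right _ _).trans (min_le_left _ _)
      calc 2^(q+3) * min (1/4) (min (μ / 2^(q+3)) (η / 2^q)) ≤ 2^(q+3) * (μ / 2^(q+3)) := by gcongr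
        _ = μ := by field_simp
    · have : min (1/4) (min (μ / 2^(q+3)) (η / 2^q)) ≤ η / 2^q :=
        (min_le_right _ _).trans (min_le_right _ _)
      calc 2^q * min (1/4) (min (μ / 2^(q+3)) (η / 2^q)) ≤ 2^q * (η / 2^q) := by gcongr
        _ = η := by field_simp
  have hσ1 : σ ≤ 1 := by linarith
  -- kappa
  set κ : ℝ := μ * σ^q / (4 * q) with hκdef
  have hqpos : (0:ℝ) < q := by exact_mod_cast hq1
  have hq1' : (1:ℝ) ≤ q := by exact_mod_cast hq1
  have hκ : 0 < κ := by positivity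
  have hκ2 : κ ≤ μ * σ^q := by
    rw [hκdef]
    apply div_le_self (by positivity)
    linarith
  have hσq1 : σ^q ≤ 1 := pow_le_one₀ hσ.le hσ1
  have hκμ : κ ≤ μ := hκ2.trans (by nlinarith)
  have hqq : σ^q = σ^(q-1) * σ := by rw [← pow_succ]; congr 1; omega
  have c1 : κ * q + 2 * (2*σ)^q ≤ μ * σ^(q-1) / 2 := by
    have e1 : κ * q = μ * σ^q / 4 := by rw [hκdef]; field_simp
    have e2 : 2 * (2*σ)^q = (2^(q+3) * σ) * σ^(q-1) / 4 := by
      rw [mul_pow, hqq, pow_add]; ring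
    have e3 : (2^(q+3) * σ) * σ^(q-1) / 4 ≤ μ * σ^(q-1) / 4 := by gcongr
    have e4 : μ * σ^q / 4 ≤ μ * σ^(q-1) / 4 := by
      rw [hqq]
      have : σ^(q-1) * σ ≤ σ^(q-1) * 1 := by gcongr
      gcongr
      linarith
    rw [e1, e2]; linarith
  -- eventual conditions
  have hLLN := (ENNReal.tendsto_nhds_zero.1 (lln P Y hY hind hid hb κ hκ q)) (δ/2) hδ2
  have hsub : Tendsto (fun n : ℕ => n - m) atTop atTop := tendsto_sub_atTop_nat m
  have hev1 : ∀ᶠ n : ℕ in atTop, (pm ν (n - m)) (bad μm κ q (n-m)) ≤ δ/2 := hsub.eventually hLLN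
  have hev2 : ∀ᶠ n : ℕ in atTop, (k n : ℝ) ≤ κ / 2 * n := by
    have := hk.eventually (gt_mem_nhds (show (0:ℝ) < κ/2 by positivity))
    filter_upwards [this, eventually_gt_atTop 0] with n hn hn0
    have hn' : (0:ℝ) < n := by exact_mod_cast hn0
    rw [div_lt_iff₀ hn'] at hn
    exact hn.le
  have hev3 : ∀ᶠ n : ℕ in atTop, Real.exp (-(ε * n)) ≤ η * σ^q := by
    have h1 : Tendsto (fun n : ℕ => Real.exp (-(ε * n))) atTop (𝓝 0) := by
      apply Real.tendsto_exp_neg_atTop_nhds_zero.comp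
      exact Tendsto.const_mul_atTop hε tendsto_natCast_atTop_atTop
    exact (h1.eventually (gt_mem_nhds (show (0:ℝ) < η * σ^q by positivity))).mono (fun n hn => hn.le)
  filter_upwards [hev1, hev2, hev3, eventually_ge_atTop (2*m+1)] with n hn1 hn2 hn3 hn4
  -- decompose n
  set n1 : ℕ := n - m with hn1def
  have hnsum : n = n1 + m := by omega
  have hn1pos : 0 < n1 := by omega
  have hn1R : (0:ℝ) < n1 := by exact_mod_cast hn1pos
  have hkn1 : (k n : ℝ) ≤ κ * n1 := by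
    have : (n:ℝ) ≤ 2 * n1 := by
      have : n ≤ 2 * n1 := by omega
      exact_mod_cast this
    nlinarith
  set τ := Real.exp (-(ε * n)) with hτ
  -- transfer to product measure
  set A : Set (Fin (n1 + m) → ℂ) := {y | ‖(gp y).coeff (k n)‖ ≤ τ} with hA
  have hcoefmeas : ∀ N K : ℕ, Measurable (fun y : Fin N → ℂ => (gp y).coeff K) := by
    intro N K
    have h1 : ∀ y : Fin N → ℂ, (gp y).coeff K = act (gp y) (cs 1 K) 0 := by
      intro y
      have := coeff_mul_act 1 (gp y) K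
      rw [mul_one] at this
      exact this
    simp only [h1]
    exact meas_act N _ 0
  have hAm : MeasurableSet A := measurableSet_le (hcoefmeas _ _).norm measurable_const
  have hPA : P {ω | ‖∑ s ∈ (Finset.range n).powersetCard (k n), ∏ i ∈ s, Y i ω‖ ≤ τ} =
      pm ν (n1+m) A := by
    rw [← law_fin P Y hY hind hid (n1+m), Measure.map_apply
      (f := fun ω (i : Fin (n1+m)) => Y i ω) (measurable_pi_iff.2 (fun i => hY i)) hAm]
    congr 1
    ext ω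
    simp only [hA, Set.mem_preimage, Set.mem_ofPred_eq]
    rw [gp_range (n1+m) (fun i => Y i ω) (k n), ← hnsum]
  rw [hPA, ← map_append, Measure.map_apply (measurable_append _ _) hAm,
    Measure.prod_apply (measurable_append _ _ hAm)]
  -- pointwise bound
  have hpt : ∀ᵐ y ∂(pm ν n1), (pm ν m) (Prod.mk y ⁻¹' ((fun p : (Fin n1 → ℂ) × (Fin m → ℂ) =>
      (Fin.append p.1 p.2 : Fin (n1+m) → ℂ)) ⁻¹' A)) ≤
      (bad μm κ q n1).indicator 1 y + δ/2 := by
    filter_upwards [ae_bdd ν hνb n1] with y hy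
    by_cases hyb : y ∈ bad μm κ q n1
    · rw [Set.indicator_of_mem hyb]
      refine (prob_le_one).trans ?_
      simp
    · rw [Set.indicator_of_notMem hyb, zero_add]
      have hset : Prod.mk y ⁻¹' ((fun p : (Fin n1 → ℂ) × (Fin m → ℂ) =>
        (Fin.append p.1 p.2 : Fin (n1+m) → ℂ)) ⁻¹' A) =
          {v | ‖act (gp v) (cs (gp y) (k n)) 0‖ ≤ τ} := by
        ext v
        simp only [hA, Set.mem_preimage, Set.mem_ofPred_eq, gp_append]
        rw [mul_comm, coeff_mul_act]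
      rw [hset]
      -- power sums
      have hgood : ∀ l ∈ Finset.Icc 1 q, ‖(n1:ℝ)⁻¹ • ∑ i, (y i)^l - μm l‖ < κ := by
        intro l hl
        by_contra hcon
        exact hyb ⟨l, hl, not_lt.1 hcon⟩
      have hscale : ∀ l, ‖∑ i, (y i)^l‖ = n1 * ‖(n1:ℝ)⁻¹ • ∑ i, (y i)^l‖ := by
        intro l
        rw [norm_smul, norm_inv, Real.norm_natCast]
        field_simp
      have hSq : μ * n1 ≤ ‖∑ i, (y i)^q‖ := by
        rw [hscale]
        have h1 := hgood q (Finset.mem_Icc.2 ⟨hq1, le_refl _⟩)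
        have h2 : ‖μm q‖ - ‖(n1:ℝ)⁻¹ • ∑ i, (y i)^q‖ ≤ ‖(n1:ℝ)⁻¹ • ∑ i, (y i)^q - μm q‖ := by
          rw [norm_sub_rev]; exact norm_sub_norm_le _ _
        have h3 : μ ≤ ‖(n1:ℝ)⁻¹ • ∑ i, (y i)^q‖ := by
          have : ‖μm q‖ = 2 * μ := by rw [hμdef]; ring
          linarith
        nlinarith
      have hSl : ∀ l, l + 1 < q → ‖∑ i, (y i)^(l+1)‖ ≤ κ * n1 := by
        intro l hl
        rw [hscale]
        have h1 := hgood (l+1) (Finset.mem_Icc.2 ⟨by omega, by omega⟩)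
        rw [hμ0 (l+1) (by omega) hl, sub_zero] at h1
        nlinarith
      have hS : ∀ l, ‖∑ i, (y i)^(l+1)‖ ≤ (n1:ℝ) := by
        intro l
        refine (norm_sum_le _ _).trans ?_
        calc ∑ i : Fin n1, ‖(y i)^(l+1)‖ ≤ ∑ i : Fin n1, (1:ℝ) := by
              apply Finset.sum_le_sum
              intro i _
              rw [norm_pow]; exact pow_le_one₀ (norm_nonneg _) (hy i)
          _ = n1 := by simp
      have he0 : (gp y).coeff 0 = 1 := by
        unfold gp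
        rw [Polynomial.coeff_zero_prod]
        simp
      obtain ⟨hX1, hdom⟩ := domination (fun i => (gp y).coeff i) (fun l => ∑ i, (y i)^l) he0
        (newton y) n1 μ κ σ q hq1 hn1R hμpos hκ.le hσ hσ4 hS hSq hSl c1 hκ2 (k n) hkn1 (k n) (le_refl _)
      obtain ⟨l, hlq, hl⟩ := XX_attain (fun i => (gp y).coeff i) σ hσ q hq1 (k n)
      set X := XX (fun i => (gp y).coeff i) σ q hq1 (k n) with hX
      have hrv : rv (fun i => (gp y).coeff i) (k n) = cs (gp y) (k n) := rfl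
      rw [hrv] at hl hdom
      have hσl : 0 < σ^l := by positivity
      have hXpos : 0 < X := by linarith
      have hσql : σ^q ≤ σ^l := pow_le_pow_of_le_one hσ.le hσ1 hlq.le
      refine hmain l hlq q (by omega) (le_refl _) (cs (gp y) (k n)) (σ^l * X)
        ((2*σ)^(l+1) * X) τ (by positivity) hl.symm.le ?_ (by positivity) ?_ ?_
      · intro j hj
        refine (hdom j).trans ?_
        have : (2*σ)^j ≤ (2*σ)^(l+1) :=
          pow_le_pow_of_le_one (by positivity) (by linarith) (by omega)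
        gcongr
      · have h1 : (2*σ)^(l+1) = (2^(l+1) * σ) * σ^l := by rw [mul_pow]; ring
        have h2 : (2:ℝ)^(l+1) ≤ 2^q := pow_le_pow_right₀ (by norm_num) (by omega)
        have h3 : (2:ℝ)^(l+1) * σ ≤ η := le_trans (by gcongr) hση
        rw [h1]
        calc (2^(l+1) * σ) * σ^l * X ≤ η * σ^l * X := by gcongr
          _ = η * (σ^l * X) := by ring
      · refine hn3.trans ?_
        have : σ^q ≤ σ^l * X := by nlinarith
        gcongr
  calc _ ≤ ∫⁻ y, ((bad μm κ q n1).indicator 1 y + δ/2) ∂(pm ν n1) := lintegral_mono_ae hpt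
    _ ≤ δ/2 + δ/2 := by
        rw [lintegral_add_right _ measurable_const, lintegral_const, measure_univ, mul_one,
          lintegral_indicator_one (meas_bad _ _ _ _)]
        gcongr
    _ = δ := ENNReal.add_halves _

end Pool.Agent.Helper11.EK
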