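import Pool.Agent.Helper71.RI.Word

/-!
# The nonfree part: a Borel cover (module UR-12)
-/

set_option autoImplicit false

namespace Pool.Agent.RI.NFC

open Pool.Agent.RI

abbrev Lt : Type := ℕ × ZMod 3

/-- the product of a list of letters, the first letter being applied first -/
def pw : List Lt → Lam
  | [] => 1
  | l :: v => pw v * thp l.1 l.2

theorem pw_append (a b : List Lt) : pw (a ++ b) = pw b * pw a := by
  induction a with
  | nil => simp [pw]
  | cons l a ih => simp [pw, ih, mul_assoc]

theorem pw_single (l : Lt) : pw [l] = thp l.1 l.2 := by simp [pw]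

theorem pw_take_succ {w : List Lt} {i : ℕ} (hi : i < w.length) :
    pw (w.take (i + 1)) = thp (w[i]).1 (w[i]).2 * pw (w.take i) := by
  rw [List.take_succ_eq_append_getElem hi, pw_append, pw_single]

theorem exists_list (g : Lam) : ∃ v : List Lt, pw v = g := by
  induction g using Monoid.CoprodI.induction_on with
  | one => exact ⟨[], rfl⟩
  | of i m => exact ⟨[(i, m.toAdd)], by simp [pw, thp]⟩
  | mul x y hx hy =>
    obtain ⟨v, hv⟩ := hx
    obtain ⟨w, hw⟩ := hy
    exact ⟨w ++ v, by rw [pw_append, hv, hw]⟩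

/-- cylinder sets -/
def BB (F : Finset ((Lam × ℕ) × ZMod 3)) : Set Cf := {z | ∀ p ∈ F, z p.1.1 p.1.2 = p.2}

abbrev Ky : Type := List Lt × Finset ((Lam × ℕ) × ZMod 3)

/-- a closed walk together with a cylinder set which separates its points -/
structure Valid (k : Ky) : Prop where
  pos : 0 < k.1.length
  ne : pw k.1 ≠ 1
  dist : ∀ (i : ℕ) (hi : i < k.1.length), (k.1[i]).1 ≠
    (k.1[(i + 1) % k.1.length]'(Nat.mod_lt _ pos)).1
  sep : ∀ i < k.1.length, ∀ j < k.1.length, i ≠ j → ∀ b ∈ BB k.2, ∀ b' ∈ BB k.2,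
    act (pw (k.1.take i)) b ≠ act (pw (k.1.take j)) b'

def EE (k : Ky) : Set Cf := {b | b ∈ BB k.2 ∧ act (pw k.1) b = b}

def Sat (k : Ky) : Set Cf := {z | ∃ g : Lam, act g z ∈ EE k}

theorem act_inv_act (g : Lam) (z : Cf) : act g⁻¹ (act g z) = z := by
  rw [← act_mul, inv_mul_cancel, act_one]

theorem act_act_inv (g : Lam) (z : Cf) : act g (act g⁻¹ z) = z := by
  rw [← act_mul, mul_inv_cancel, act_one]

theorem sat_act {k : Ky} {z : Cf} (h : Lam) : act h z ∈ Sat k ↔ z ∈ Sat k := by
  constructor
  · rintro ⟨g, hg⟩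
    exact ⟨g * h, by rw [act_mul]; exact hg⟩
  · rintro ⟨g, hg⟩
    exact ⟨g * h⁻¹, by rw [act_mul, act_inv_act]; exact hg⟩

/-- minimal closed walk -/
theorem exists_valid {z : Cf} (hz : IsZ z) (hn : NonFree z) :
    ∃ (h : Lam) (k : Ky), Valid k ∧ act h z ∈ EE k := by
  classical
  have hex : ∃ L : ℕ, ∃ (h : Lam) (v : List Lt), v.length = L ∧ pw v ≠ 1 ∧
      act (pw v) (act h z) = act h z := by
    obtain ⟨g, hg, hgz⟩ := hn
    obtain ⟨v, hv⟩ := exists_list g
    exact ⟨v.length, 1, v, rfl, by rw [hv]; exact hg, by rw [hv, act_one]; exact hgz⟩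
  obtain ⟨h, v, hvL, hv1, hvz⟩ := Nat.find_spec hex
  have hmin : ∀ (h' : Lam) (v' : List Lt), pw v' ≠ 1 → act (pw v') (act h' z) = act h' z →
      v.length ≤ v'.length := by
    intro h' v' h1 h2
    rw [hvL]
    exact Nat.find_min' hex ⟨h', v', rfl, h1, h2⟩
  have hpos : 0 < v.length := by
    rcases v with _ | ⟨l, v⟩
    · exact absurd rfl hv1
    · simp
  have hsep : ∀ i j, i < j → j < v.length →
      act (pw (v.take i)) (act h z) ≠ act (pw (v.take j)) (act h z) := by
    intro i j hij hj heq
    have hsplit : v = v.take i ++ ((v.take j).drop i ++ v.drop j) := by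
      have h1 : v.take i = (v.take j).take i := by
        rw [List.take_take, min_eq_left hij.le]
      rw [h1, ← List.append_assoc, List.take_append_drop, List.take_append_drop]
    have hj' : v.take j = v.take i ++ (v.take j).drop i := by
      have h1 : v.take i = (v.take j).take i := by
        rw [List.take_take, min_eq_left hij.le]
      conv_lhs => rw [← List.take_append_drop i (v.take j)]
      rw [← h1]
    set a := v.take i with ha
    set b := (v.take j).drop i with hb
    set c := v.drop j with hc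
    have hal : a.length = i := by rw [ha, List.length_take]; omega
    have hbl : b.length = j - i := by rw [hb, List.length_drop, List.length_take]; omega
    have hcl : c.length = v.length - j := by rw [hc, List.length_drop]
    have hb1 : pw b = 1 := by
      by_contra hne
      have h2 : act (pw b) (act (pw a * h) z) = act (pw a * h) z := by
        rw [act_mul (pw a) h, ← act_mul (pw b), ← pw_append, ← hj']
        exact heq.symm
      have := hmin (pw a * h) b hne h2
      omega
    have hpw : pw (a ++ c) = pw v := by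
      rw [hsplit, pw_append, pw_append a, pw_append b, hb1, mul_one]
    have h3 := hmin h (a ++ c) (by rw [hpw]; exact hv1) (by rw [hpw]; exact hvz)
    rw [List.length_append] at h3
    omega
  have hmerge : ∀ (h' : Lam) (v' : List Lt), v'.length = v.length → pw v' ≠ 1 →
      act (pw v') (act h' z) = act h' z → ∀ (a c : List Lt) (n : ℕ) (e e' : ZMod 3),
      v' = a ++ (n, e) :: (n, e') :: c → False := by
    intro h' v' hl h1 h2 a c n e e' hv'
    have hpw : pw (a ++ (n, e + e') :: c) = pw v' := by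
      rw [hv', pw_append, pw_append]
      simp only [pw, mul_assoc]
      rw [← mul_assoc (thp n e') (thp n e), ← thp_add, add_comm e']
    have h3 := hmin h' _ (by rw [hpw]; exact h1) (by rw [hpw]; exact h2)
    rw [← hl, hv'] at h3
    simp only [List.length_append, List.length_cons] at h3
    omega
  have h2 : 2 ≤ v.length := by
    by_contra hlt
    have h1 : v.length = 1 := by omega
    obtain ⟨l, rfl⟩ := List.length_eq_one_iff.1 h1
    rw [pw_single] at hv1 hvz
    have hl : l.2 ≠ 0 := by
      intro h0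
      apply hv1
      rw [h0, thp_zero]
    have hzz := congrFun (congrFun hvz (thp l.1 l.2)) l.1
    have hIZ : IsZ (act h z) := hz.act h
    have h3 : act (thp l.1 l.2) (act h z) (thp l.1 l.2) l.1 = act h z 1 l.1 := by
      unfold act
      simp
    have h4 : act h z (1 * thp l.1 l.2) l.1 = act h z 1 l.1 + l.2 := hIZ.thp 1 l.1 l.2
    rw [one_mul] at h4
    rw [h3, h4] at hzz
    exact hl (by simpa using hzz)
  have hdist : ∀ (i : ℕ) (hi : i < v.length), (v[i]).1 ≠
      (v[(i + 1) % v.length]'(Nat.mod_lt _ hpos)).1 := by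
    intro i hi heq
    rcases Nat.lt_or_ge (i + 1) v.length with hc | hc
    · have hm : (i + 1) % v.length = i + 1 := Nat.mod_eq_of_lt hc
      have heq' : (v[i]).1 = (v[i + 1]).1 := by
        rw [heq]
        congr 2
      apply hmerge _ v rfl hv1 hvz (v.take i) (v.drop (i + 2)) (v[i]).1 (v[i]).2 (v[i + 1]).2
      have e1 : ((v[i]).1, (v[i]).2) = v[i] := rfl
      have e2 : ((v[i]).1, (v[i + 1]).2) = v[i + 1] := by rw [heq']
      rw [e1, e2, ← List.drop_eq_getElem_cons hc, ← List.drop_eq_getElem_cons hi,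
        List.take_append_drop]
    · have hiL : i + 1 = v.length := by omega
      have hm : (i + 1) % v.length = 0 := by rw [hiL, Nat.mod_self]
      rcases v with _ | ⟨l, v⟩
      · simp at hpos
      · simp only [List.length_cons] at *
        have hvne : v ≠ [] := by
          rintro rfl
          simp at h2
        obtain ⟨m, l', rfl⟩ : ∃ m l', v = m ++ [l'] :=
          ⟨v.dropLast, v.getLast hvne, (List.dropLast_append_getLast hvne).symm⟩
        have hi' : i = m.length + 1 := by
          simp only [List.length_append, List.length_cons, List.length_nil] at hiL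
          omega
        subst hi'
        have e1 : ((l :: (m ++ [l']))[m.length + 1]'(by simp)).1 = l'.1 := by
          simp
        have e2 : ((l :: (m ++ [l']))[(m.length + 1 + 1) % ((m ++ [l']).length + 1)]'(Nat.mod_lt _ (by simp))).1 = l.1 := by
          simp
        have hll : l'.1 = l.1 := by
          rw [← e1, ← e2]
          exact heq
        have hrot : pw (m ++ [l', l]) = thp l.1 l.2 * pw (l :: (m ++ [l'])) * (thp l.1 l.2)⁻¹ := by
          simp [pw, pw_append, mul_assoc]
        refine hmerge (thp l.1 l.2 * h) (m ++ [l', l]) (by simp) ?_ ?_ m [] l.1 l'.2 l.2 ?_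
        · rw [hrot]
          intro h1
          apply hv1
          have := congrArg (fun x => (thp l.1 l.2)⁻¹ * x * thp l.1 l.2) h1
          simpa [mul_assoc] using this
        · rw [hrot, ← act_mul, mul_assoc, inv_mul_cancel_left, mul_assoc, act_mul, act_mul _ h,
            hvz, ← act_mul]
        · have : (l.1, l'.2) = l' := by rw [← hll]
          rw [this]
  -- the cylinder
  have hcoord : ∀ p ∈ (Finset.range v.length ×ˢ Finset.range v.length), p.1 ≠ p.2 →
      ∃ x : Lam × ℕ, act (pw (v.take p.1)) (act h z) x.1 x.2 ≠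
        act (pw (v.take p.2)) (act h z) x.1 x.2 := by
    intro p hp hne
    rw [Finset.mem_product, Finset.mem_range, Finset.mem_range] at hp
    have hne' : act (pw (v.take p.1)) (act h z) ≠ act (pw (v.take p.2)) (act h z) := by
      rcases lt_or_gt_of_ne hne with hlt | hlt
      · exact hsep _ _ hlt hp.2
      · exact (hsep _ _ hlt hp.1).symm
    by_contra hall
    push Not at hall
    exact hne' (funext fun g => funext fun m => hall (g, m))
  choose! X hX using hcoord
  let pt : ℕ → ℕ × ℕ → (Lam × ℕ) × ZMod 3 := fun i p =>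
    (((pw (v.take i))⁻¹ * (X p).1, (X p).2), act (pw (v.take i)) (act h z) (X p).1 (X p).2)
  let F : Finset ((Lam × ℕ) × ZMod 3) :=
    (Finset.range v.length ×ˢ Finset.range v.length).biUnion fun p => {pt p.1 p, pt p.2 p}
  have hF : ∀ p ∈ Finset.range v.length ×ˢ Finset.range v.length, pt p.1 p ∈ F ∧ pt p.2 p ∈ F := by
    intro p hp
    constructor <;>
    · simp only [F, Finset.mem_biUnion]
      exact ⟨p, hp, by simp⟩
  refine ⟨h, (v, F), ⟨hpos, hv1, hdist, ?_⟩, ?_, hvz⟩
  · intro i hi j hj hij b hb b' hb' heq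
    have hp : (i, j) ∈ Finset.range v.length ×ˢ Finset.range v.length := by
      rw [Finset.mem_product, Finset.mem_range, Finset.mem_range]; exact ⟨hi, hj⟩
    obtain ⟨h1, h2⟩ := hF _ hp
    have h3 := hb _ h1
    have h4 := hb' _ h2
    have h5 := congrFun (congrFun heq (X (i, j)).1) (X (i, j)).2
    apply hX _ hp hij
    have h6 : act (pw (v.take i)) b (X (i, j)).1 (X (i, j)).2 =
        b ((pw (v.take i))⁻¹ * (X (i, j)).1) (X (i, j)).2 := rfl
    have h7 : act (pw (v.take j)) b' (X (i, j)).1 (X (i, j)).2 =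
        b' ((pw (v.take j))⁻¹ * (X (i, j)).1) (X (i, j)).2 := rfl
    change act (pw (v.take i)) (act h z) (X (i, j)).1 (X (i, j)).2 =
      act (pw (v.take j)) (act h z) (X (i, j)).1 (X (i, j)).2
    have h3' : b ((pw (v.take i))⁻¹ * (X (i, j)).1) (X (i, j)).2 =
      act (pw (v.take i)) (act h z) (X (i, j)).1 (X (i, j)).2 := h3
    have h4' : b' ((pw (v.take j))⁻¹ * (X (i, j)).1) (X (i, j)).2 =
      act (pw (v.take j)) (act h z) (X (i, j)).1 (X (i, j)).2 := h4
    rw [← h3', ← h4', ← h6, ← h7]
    exact h5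
  · intro q hq
    simp only [F, Finset.mem_biUnion, Finset.mem_insert, Finset.mem_singleton] at hq
    obtain ⟨p, hp, rfl | rfl⟩ := hq
    · rfl
    · rfl

theorem measurableSet_coord (g : Lam) (m : ℕ) (a : ZMod 3) : MeasurableSet {z : Cf | z g m = a} := by
  have h1 : Measurable (fun z : Cf => z g m) := by fun_prop
  exact h1 (measurableSet_singleton a)

theorem measurable_act' (g : Lam) : Measurable (act g) := by
  refine measurable_pi_lambda _ fun h => measurable_pi_lambda _ fun m => ?_
  have h1 : Measurable (fun z : Cf => z (g⁻¹ * h) m) := by fun_prop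
  exact h1

theorem measurableSet_BB (F : Finset ((Lam × ℕ) × ZMod 3)) : MeasurableSet (BB F) := by
  have : BB F = ⋂ p ∈ F, {z : Cf | z p.1.1 p.1.2 = p.2} := by
    ext z; simp [BB]
  rw [this]
  exact Finset.measurableSet_biInter F fun p _ => measurableSet_coord _ _ _

theorem measurableSet_fix (g : Lam) : MeasurableSet {z : Cf | act g z = z} := by
  have : {z : Cf | act g z = z} = ⋂ h : Lam, ⋂ m : ℕ, {z : Cf | z (g⁻¹ * h) m = z h m} := by
    ext z
    rw [Set.mem_iInter]
    simp_rw [Set.mem_iInter]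
    constructor
    · intro hz h m
      exact congrFun (congrFun hz h) m
    · intro hz
      exact funext fun h => funext fun m => hz h m
  rw [this]
  refine MeasurableSet.iInter fun h => MeasurableSet.iInter fun m => ?_
  have h1 : Measurable (fun z : Cf => z (g⁻¹ * h) m) := by fun_prop
  have h2 : Measurable (fun z : Cf => z h m) := by fun_prop
  exact measurableSet_eq_fun h1 h2

theorem measurableSet_EE (k : Ky) : MeasurableSet (EE k) :=
  (measurableSet_BB _).inter (measurableSet_fix _)

theorem measurableSet_Sat (k : Ky) : MeasurableSet (Sat k) := by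
  have : Sat k = ⋃ g : Lam, act g ⁻¹' EE k := by
    ext z; simp [Sat]
  rw [this]
  exact MeasurableSet.iUnion fun g => measurable_act' g (measurableSet_EE k)

/-- the orbits whose first valid key is `k` -/
def Min (f : Ky → ℕ) (k : Ky) : Set Cf := {z | z ∈ Sat k ∧ ∀ k', Valid k' → f k' < f k → z ∉ Sat k'}

theorem min_act {f : Ky → ℕ} {k : Ky} {z : Cf} (h : Lam) : act h z ∈ Min f k ↔ z ∈ Min f k := by
  constructor
  · rintro ⟨h1, h2⟩
    exact ⟨(sat_act h).1 h1, fun k' hk' hlt hs => h2 k' hk' hlt ((sat_act h).2 hs)⟩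
  · rintro ⟨h1, h2⟩
    exact ⟨(sat_act h).2 h1, fun k' hk' hlt hs => h2 k' hk' hlt ((sat_act h).1 hs)⟩

theorem measurableSet_Min (f : Ky → ℕ) (k : Ky) : MeasurableSet (Min f k) := by
  have : Min f k = Sat k ∩ ⋂ k' : Ky, {z : Cf | Valid k' → f k' < f k → z ∉ Sat k'} := by
    ext z
    rw [Set.mem_inter_iff, Set.mem_iInter]
    rfl
  rw [this]
  refine (measurableSet_Sat k).inter (MeasurableSet.iInter fun k' => ?_)
  by_cases h1 : Valid k'
  · by_cases h2 : f k' < f k
    · have : {z : Cf | Valid k' → f k' < f k → z ∉ Sat k'} = (Sat k')ᶜ := by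
        ext z
        exact ⟨fun h => h h1 h2, fun h _ _ => h⟩
      rw [this]
      exact (measurableSet_Sat k').compl
    · have : {z : Cf | Valid k' → f k' < f k → z ∉ Sat k'} = Set.univ := by
        ext z
        exact ⟨fun _ => trivial, fun _ _ h => absurd h h2⟩
      rw [this]
      exact MeasurableSet.univ
  · have : {z : Cf | Valid k' → f k' < f k → z ∉ Sat k'} = Set.univ := by
      ext z
      exact ⟨fun _ => trivial, fun _ h => absurd h h1⟩
    rw [this]
    exact MeasurableSet.univ

/-- the seeds with label `n` -/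
def GG (f : Ky → ℕ) (n : ℕ) : Set Cf := {c | ∃ (k : Ky) (i : ℕ), Valid k ∧
  ((k.1)[i]?).map Prod.fst = some n ∧ c ∈ Min f k ∧ act (pw (k.1.take i))⁻¹ c ∈ EE k}

theorem measurableSet_GG (f : Ky → ℕ) (n : ℕ) : MeasurableSet (GG f n) := by
  have : GG f n = ⋃ k : Ky, ⋃ i : ℕ, ⋃ _ : Valid k ∧ ((k.1)[i]?).map Prod.fst = some n,
      (Min f k ∩ act (pw (k.1.take i))⁻¹ ⁻¹' EE k) := by
    ext z
    simp only [GG, Set.mem_iUnion, Set.mem_inter_iff, Set.mem_preimage]
    constructor
    · rintro ⟨k, i, h1, h2, h3, h4⟩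
      exact ⟨k, i, ⟨h1, h2⟩, h3, h4⟩
    · rintro ⟨k, i, ⟨h1, h2⟩, h3, h4⟩
      exact ⟨k, i, h1, h2, h3, h4⟩
  rw [this]
  exact MeasurableSet.iUnion fun k => MeasurableSet.iUnion fun i => MeasurableSet.iUnion fun _ =>
    (measurableSet_Min f k).inter (measurable_act' _ (measurableSet_EE k))

theorem GG_uniq {f : Ky → ℕ} (hf : Function.Injective f) {n n' : ℕ} {c : Cf} (h : c ∈ GG f n)
    (h' : c ∈ GG f n') : n = n' := by
  obtain ⟨k, i, hk, hi, hc, he⟩ := h
  obtain ⟨k', i', hk', hi', hc', he'⟩ := h'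
  have hkk : k = k' := by
    apply hf
    rcases lt_trichotomy (f k) (f k') with hlt | heq | hlt
    · exact absurd hc.1 (hc'.2 k hk hlt)
    · exact heq
    · exact absurd hc'.1 (hc.2 k' hk' hlt)
  subst hkk
  have hil : i < k.1.length := by
    by_contra hge
    rw [List.getElem?_eq_none (by omega)] at hi
    simp at hi
  have hil' : i' < k.1.length := by
    by_contra hge
    rw [List.getElem?_eq_none (by omega)] at hi'
    simp at hi'
  have hii : i = i' := by
    by_contra hne
    apply hk.sep i hil i' hil' hne _ he.1 _ he'.1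
    rw [act_act_inv, act_act_inv]
  subst hii
  rw [hi] at hi'
  exact Option.some.inj hi'

theorem GG_next {f : Ky → ℕ} {n : ℕ} {c : Cf} (h : c ∈ GG f n) :
    ∃ (e : ZMod 3) (n' : ℕ), n' ≠ n ∧ act (thp n e) c ∈ GG f n' := by
  obtain ⟨k, i, hk, hi, hc, he⟩ := h
  have hil : i < k.1.length := by
    by_contra hge
    rw [List.getElem?_eq_none (by omega)] at hi
    simp at hi
  rw [List.getElem?_eq_getElem hil, Option.map_some] at hi
  have hin : (k.1[i]).1 = n := Option.some.inj hi
  have hml : (i + 1) % k.1.length < k.1.length := Nat.mod_lt _ hk.pos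
  refine ⟨(k.1[i]).2, (k.1[(i + 1) % k.1.length]).1, ?_, k, (i + 1) % k.1.length, hk, ?_,
    (min_act _).2 hc, ?_⟩
  · rw [← hin]
    exact (hk.dist i hil).symm
  · rw [List.getElem?_eq_getElem hml, Option.map_some]
  · have hb : act (thp n (k.1[i]).2) c =
        act (pw (k.1.take (i + 1))) (act (pw (k.1.take i))⁻¹ c) := by
      rw [pw_take_succ hil, act_mul, act_act_inv, hin]
    rw [hb]
    rcases Nat.lt_or_ge (i + 1) k.1.length with h | h
    · rw [Nat.mod_eq_of_lt h, act_inv_act]
      exact he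
    · have hiL : i + 1 = k.1.length := by omega
      rw [hiL, Nat.mod_self, List.take_length, he.2]
      simp only [List.take_zero, pw, inv_one, act_one]
      exact he

theorem GG_exists {f : Ky → ℕ} {z : Cf} (hz : IsZ z) (hn : NonFree z) :
    ∃ (v : List Lt) (n : ℕ), act (pw v) z ∈ GG f n := by
  classical
  have hex : ∃ j : ℕ, ∃ k : Ky, f k = j ∧ Valid k ∧ z ∈ Sat k := by
    obtain ⟨h, k, hk, he⟩ := exists_valid hz hn
    exact ⟨f k, k, rfl, hk, h, he⟩
  obtain ⟨k, hkj, hk, g, hg⟩ := Nat.find_spec hex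
  have hmin : z ∈ Min f k := by
    refine ⟨⟨g, hg⟩, fun k' hk' hlt hs => ?_⟩
    have := Nat.find_min' hex ⟨k', rfl, hk', hs⟩
    omega
  obtain ⟨v, hv⟩ := exists_list g
  refine ⟨v, (k.1[0]'hk.pos).1, k, 0, hk, ?_, (min_act _).2 hmin, ?_⟩
  · rw [List.getElem?_eq_getElem hk.pos, Option.map_some]
  · simp only [List.take_zero, pw, inv_one, act_one]
    rw [hv]
    exact hg

theorem GG_nonFree {f : Ky → ℕ} {z : Cf} {g : Lam} {n : ℕ} (h : act g z ∈ GG f n) : NonFree z := by
  obtain ⟨k, i, hk, hi, hc, he⟩ := h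
  obtain ⟨g', hg', hg2⟩ := hc.1
  rw [← act_mul g' g] at hg2
  refine ⟨(g' * g)⁻¹ * pw k.1 * (g' * g), ?_, ?_⟩
  · intro h1
    apply hk.ne
    have := congrArg (fun x => (g' * g) * x * (g' * g)⁻¹) h1
    simpa [mul_assoc] using this
  · rw [act_mul, act_mul, hg2, act_inv_act]

end Pool.Agent.RI.NFC

namespace Pool.Agent.RI

open NFC in
/-- The nonfree configurations can be covered by Borel sets `N n` such that `N n` contains no
complete orbit of `θ_n`. -/
theorem nonfree_cover_aux : ∃ N : ℕ → Set Cf, (∀ n, MeasurableSet (N n)) ∧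
    (∀ z, IsZ z → NonFree z → ∃ n, z ∈ N n) ∧
    (∀ n z, z ∈ N n → NonFree z) ∧
    (∀ n z, IsZ z → ¬ (z ∈ N n ∧ act (thp n 1) z ∈ N n ∧ act (thp n 2) z ∈ N n)) := by
  classical
  obtain ⟨f, hf⟩ := exists_injective_nat Ky
  let D : Set Cf := ⋃ n, GG f n
  have hD : MeasurableSet D := MeasurableSet.iUnion fun n => measurableSet_GG f n
  let R : ℕ → Set Cf := fun n => {z | z ∉ D ∧ ∃ (e : ZMod 3) (v : List Lt),
    act (pw ((n, e) :: v)) z ∈ D ∧ ∀ v' : List Lt, v'.length ≤ v.length → act (pw v') z ∉ D}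
  have hR : ∀ n, MeasurableSet (R n) := by
    intro n
    have : R n = Dᶜ ∩ ⋃ e : ZMod 3, ⋃ v : List Lt, ((act (pw ((n, e) :: v)) ⁻¹' D) ∩
        ⋂ v' : List Lt, ⋂ _ : v'.length ≤ v.length, (act (pw v') ⁻¹' D)ᶜ) := by
      ext z
      simp only [R, Set.mem_inter_iff, Set.mem_iUnion, Set.mem_iInter, Set.mem_compl_iff,
        Set.mem_preimage]
      rfl
    rw [this]
    exact hD.compl.inter (MeasurableSet.iUnion fun e => MeasurableSet.iUnion fun v =>
      (measurable_act' _ hD).inter (MeasurableSet.iInter fun v' => MeasurableSet.iInter fun _ =>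
        (measurable_act' _ hD).compl))
  refine ⟨fun n => GG f n ∪ R n, fun n => (measurableSet_GG f n).union (hR n), ?_, ?_, ?_⟩
  · intro z hz hn
    by_cases hzD : z ∈ D
    · obtain ⟨n, h⟩ := Set.mem_iUnion.1 hzD
      exact ⟨n, Or.inl h⟩
    · have hex : ∃ L : ℕ, ∃ v : List Lt, v.length = L ∧ act (pw v) z ∈ D := by
        obtain ⟨v, n, h⟩ := GG_exists (f := f) hz hn
        exact ⟨v.length, v, rfl, Set.mem_iUnion.2 ⟨n, h⟩⟩
      obtain ⟨v, hvL, hv⟩ := Nat.find_spec hex
      rcases v with _ | ⟨⟨n, e⟩, v⟩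
      · simp only [pw, act_one] at hv
        exact absurd hv hzD
      · refine ⟨n, Or.inr ⟨hzD, e, v, hv, fun v' hv' h => ?_⟩⟩
        have := Nat.find_min' hex ⟨v', rfl, h⟩
        simp only [List.length_cons] at hvL
        omega
  · rintro n z (h | ⟨_, e, v, h, _⟩)
    · exact GG_nonFree (g := 1) (by rw [act_one]; exact h)
    · obtain ⟨n', h'⟩ := Set.mem_iUnion.1 h
      exact GG_nonFree h'
  · rintro n z hz ⟨h0, h1, h2⟩
    have hall : ∀ e : ZMod 3, act (thp n e) z ∈ GG f n ∪ R n := by
      intro e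
      fin_cases e
      · change act (thp n 0) z ∈ _
        rw [thp_zero, act_one]; exact h0
      · exact h1
      · exact h2
    by_cases hG : ∃ e : ZMod 3, act (thp n e) z ∈ GG f n
    · obtain ⟨e, he⟩ := hG
      obtain ⟨e', n', hne, hn'⟩ := GG_next he
      rw [← act_mul, ← thp_add] at hn'
      rcases hall (e' + e) with h | h
      · exact hne (GG_uniq hf hn' h)
      · exact h.1 (Set.mem_iUnion.2 ⟨n', hn'⟩)
    · push Not at hG
      have hRR : ∀ e : ZMod 3, act (thp n e) z ∈ R n := fun e => (hall e).resolve_left (hG e)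
      have hex : ∃ L : ℕ, ∃ (e : ZMod 3) (v : List Lt), v.length = L ∧
          act (pw v) (act (thp n e) z) ∈ D := by
        obtain ⟨_, e, v, h, _⟩ := hRR 0
        exact ⟨_, 0, _, rfl, h⟩
      obtain ⟨e, v, hvL, hv⟩ := Nat.find_spec hex
      obtain ⟨hnD, e', v', h', hmin⟩ := hRR e
      have h3 : act (pw v') (act (thp n (e' + e)) z) ∈ D := by
        rw [thp_add, act_mul]
        simpa only [pw, act_mul] using h'
      have h4 := Nat.find_min' hex ⟨e' + e, v', rfl, h3⟩
      exact hmin v (by omega) hv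

end Pool.Agent.RI
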